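import Pool.Agent.FGT.CayDefs

set_option autoImplicit false

namespace Pool.Agent.FGT

open Pool.Agent.MP_515f4e_co

variable {Γ : Type} [Group Γ] (S : Finset Γ)

theorem CayA_adj (g h : Γ) : (Cay S).Adj g h ↔ g ≠ h ∧ (g⁻¹ * h ∈ S ∨ h⁻¹ * g ∈ S) := by
  unfold Cay
  rw [SimpleGraph.fromRel_adj]

theorem CayA_reach (g s : Γ) (hs : s ∈ S) : (Cay S).Reachable g (g * s) := by
  by_cases h : g = g * s
  · rw [← h]
  · apply SimpleGraph.Adj.reachable
    rw [CayA_adj]
    exact ⟨h, Or.inl (by simpa using hs)⟩

/-- `Subgroup.closure_induction`: every `h` is reachable from every `g`, since `g` and `g * s`, `g * s⁻¹` are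
equal or adjacent for `s ∈ S`. -/
theorem cay_connected (hS : Subgroup.closure (S : Set Γ) = ⊤) : (Cay S).Connected := by
  have key : ∀ x : Γ, ∀ g : Γ, (Cay S).Reachable g (g * x) := by
    intro x
    have hx : x ∈ Subgroup.closure (S : Set Γ) := by rw [hS]; trivial
    induction hx using Subgroup.closure_induction with
    | mem s hs => intro g; exact CayA_reach S g s hs
    | one => intro g; rw [mul_one]
    | mul a b _ _ ha hb =>
      intro g
      rw [← mul_assoc]
      exact (ha g).trans (hb (g * a))
    | inv a _ ha =>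
      intro g
      have := ha (g * a⁻¹)
      rw [inv_mul_cancel_right] at this
      exact this.symm
  have : (Cay S).Preconnected := by
    intro g h
    have := key (g⁻¹ * h) g
    rwa [mul_inv_cancel_left] at this
  exact ⟨this⟩

/-- the neighbours of `g` are among `g * s`, `g * s⁻¹`, `s ∈ S` -/
theorem cay_degree (g : Γ) : ((Cay S).neighborSet g).encard ≤ ((2 * S.card : ℕ) : ℕ∞) := by
  classical
  have hsub : (Cay S).neighborSet g ⊆
      ((S.image (fun s => g * s) ∪ S.image (fun s => g * s⁻¹) : Finset Γ) : Set Γ) := by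
    intro h hh
    rw [SimpleGraph.mem_neighborSet, CayA_adj] at hh
    rw [Finset.mem_coe, Finset.mem_union, Finset.mem_image, Finset.mem_image]
    rcases hh.2 with h1 | h1
    · left
      exact ⟨_, h1, by group⟩
    · right
      exact ⟨_, h1, by group⟩
  calc ((Cay S).neighborSet g).encard ≤
      (((S.image (fun s => g * s) ∪ S.image (fun s => g * s⁻¹) : Finset Γ) : Set Γ)).encard :=
        Set.encard_le_encard hsub
    _ = (((S.image (fun s => g * s) ∪ S.image (fun s => g * s⁻¹)).card : ℕ) : ℕ∞) :=
        Set.encard_coe_eq_coe_finsetCard _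
    _ ≤ ((2 * S.card : ℕ) : ℕ∞) := by
        have : (S.image (fun s => g * s) ∪ S.image (fun s => g * s⁻¹)).card ≤ 2 * S.card := by
          refine (Finset.card_union_le _ _).trans ?_
          have h1 := Finset.card_image_le (s := S) (f := fun s => g * s)
          have h2 := Finset.card_image_le (s := S) (f := fun s => g * s⁻¹)
          omega
        exact_mod_cast this

/-- left multiplication as an automorphism of the graph -/
def CayA_iso (x : Γ) : Cay S ≃g Cay S where
  toEquiv := Equiv.mulLeft x
  map_rel_iff' := by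
    intro a b
    rw [CayA_adj, CayA_adj]
    simp only [Equiv.coe_mulLeft, ne_eq, mul_right_inj]
    have h1 : (x * a)⁻¹ * (x * b) = a⁻¹ * b := by group
    have h2 : (x * b)⁻¹ * (x * a) = b⁻¹ * a := by group
    rw [h1, h2]

theorem CayA_dist_le (hS : Subgroup.closure (S : Set Γ) = ⊤) (x a b : Γ) :
    (Cay S).dist (x * a) (x * b) ≤ (Cay S).dist a b := by
  obtain ⟨p, hp⟩ := (cay_connected S hS).exists_walk_length_eq_dist a b
  rw [← hp]
  have := SimpleGraph.dist_le (p.map (CayA_iso S x).toHom)
  rw [SimpleGraph.Walk.length_map] at this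
  exact this

theorem CayA_dist (hS : Subgroup.closure (S : Set Γ) = ⊤) (x a b : Γ) :
    (Cay S).dist (x * a) (x * b) = (Cay S).dist a b := by
  apply le_antisymm (CayA_dist_le S hS x a b)
  have := CayA_dist_le S hS x⁻¹ (x * a) (x * b)
  rwa [inv_mul_cancel_left, inv_mul_cancel_left] at this

/-- left multiplication by `x` is an automorphism of the graph, so it preserves distances and maps the ball
around `1` onto the ball around `x` -/
theorem cay_ball (hS : Subgroup.closure (S : Set Γ) = ⊤) (x : Γ) (l : ℕ) :
    (ball (Cay S) x l).ncard = (ball (Cay S) 1 l).ncard := by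
  have h : ball (Cay S) x l = (fun z => x * z) '' ball (Cay S) 1 l := by
    ext z
    rw [mem_ball, Set.mem_image]
    constructor
    · intro hz
      refine ⟨x⁻¹ * z, ?_, by group⟩
      rw [mem_ball]
      have := CayA_dist S hS x 1 (x⁻¹ * z)
      rw [mul_one, mul_inv_cancel_left] at this
      omega
    · rintro ⟨y, hy, rfl⟩
      rw [mem_ball] at hy
      have := CayA_dist S hS x 1 y
      rw [mul_one] at this
      omega
  rw [h, Set.ncard_image_of_injective _ (mul_right_injective x)]

end Pool.Agent.FGT
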