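import Pool.Agent.FGT.CayDefs

set_option autoImplicit false

namespace Pool.Agent.FGT

open Pool.Agent.MP_515f4e_co

variable {Γ : Type} [Group Γ] {S : Finset Γ}

theorem verts_length (g : Γ) (w : List S) : (verts g w).length = w.length := by
  induction w generalizing g with
  | nil => rfl
  | cons s w ih => simp only [verts, List.length_cons, ih]

theorem verts_append (g : Γ) (w u : List S) :
    verts g (w ++ u) = verts g w ++ verts (g * (w.map Subtype.val).prod) u := by
  induction w generalizing g with
  | nil => simp [verts]
  | cons s w ih =>
    simp only [verts, List.cons_append, ih, List.map_cons, List.prod_cons, mul_assoc]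

theorem verts_getLastD (g : Γ) (w : List S) :
    (verts g w).getLastD g = g * (w.map Subtype.val).prod := by
  induction w generalizing g with
  | nil => simp [verts]
  | cons s w ih =>
    simp only [verts, List.getLastD_cons, ih, List.map_cons, List.prod_cons, mul_assoc]

theorem verts_injective (g : Γ) : Function.Injective (verts (S := S) g) := by
  intro w
  induction w generalizing g with
  | nil =>
    intro u h
    rcases u with _ | ⟨t, u⟩
    · rfl
    · simp [verts] at h
  | cons s w ih =>
    intro u h
    rcases u with _ | ⟨t, u⟩
    · simp [verts] at h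
    · simp only [verts, List.cons.injEq] at h
      obtain ⟨h1, h2⟩ := h
      have hst : s = t := Subtype.ext (mul_left_cancel h1)
      subst hst
      rw [ih (g * (s : Γ)) h2]

theorem verts_chain (h1 : (1 : Γ) ∉ S) (g : Γ) (w : List S) :
    List.IsChain (Cay S).Adj (g :: verts g w) := by
  induction w generalizing g with
  | nil => simp [verts]
  | cons s w ih =>
    simp only [verts]
    rw [List.isChain_cons_cons]
    refine ⟨?_, ih _⟩
    unfold Cay
    rw [SimpleGraph.fromRel_adj]
    refine ⟨?_, Or.inl ?_⟩
    · intro h
      have h2 : (s : Γ) = 1 := by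
        have : g * 1 = g * (s : Γ) := by rw [mul_one]; exact h
        exact (mul_left_cancel this).symm
      exact h1 (h2 ▸ s.2)
    · rw [inv_mul_cancel_left]
      exact s.2

/-- a prefix of `verts g w` is `verts g` of a prefix of `w` -/
theorem verts_prefix (g : Γ) (w : List S) (a b : List Γ) (h : a ++ b = verts g w) :
    ∃ w1 w2 : List S, w = w1 ++ w2 ∧ a = verts g w1 := by
  induction w generalizing g a with
  | nil =>
    refine ⟨[], [], rfl, ?_⟩
    simp only [verts] at h ⊢
    exact (List.append_eq_nil_iff.mp h).1
  | cons s w ih =>
    rcases a with _ | ⟨x, a⟩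
    · exact ⟨[], s :: w, rfl, by simp [verts]⟩
    · simp only [verts, List.cons_append, List.cons.injEq] at h
      obtain ⟨h1, h2⟩ := h
      obtain ⟨w1, w2, e1, e2⟩ := ih (g * (s : Γ)) a h2
      refine ⟨s :: w1, w2, ?_, ?_⟩
      · rw [e1]; rfl
      · simp only [verts]
        rw [h1, e2]

end Pool.Agent.FGT
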