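import Pool.Agent.FGT.CayA
import Pool.Agent.FGT.CayB

set_option autoImplicit false

namespace Pool.Agent.FGT

open Pool.Agent.MP_515f4e_co

variable {Γ : Type} [Group Γ] {S : Finset Γ} {σ : Type} [Fintype σ]

/-- The number of prefixes of length `n` of words of a regular language is bounded in terms of the
numbers of its words: choose for each state `q` from which an accepting state can be reached a word
`u q` leading to an accepting state; then `w ↦ w ++ u q` maps the prefixes of state `q` injectively
into the language. -/
theorem prefix_count (hS : Subgroup.closure (S : Set Γ) = ⊤) (M : DFA S σ) (C : ℕ)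
    (hC : ∀ n : ℕ, {w : List S | w ∈ M.accepts ∧ w.length = n}.ncard ≤
      C * (ball (Cay S) 1 n).ncard) :
    ∃ C' : ℕ, ∀ n : ℕ, {w : List S | w ∈ prefixes (M.accepts : Set (List S)) ∧
      w.length = n}.ncard ≤ C' * (ball (Cay S) 1 n).ncard := by
  classical
  have hfin : ∀ n : ℕ, {w : List S | w.length = n}.Finite := fun n => List.finite_length_eq S n
  have hu : ∀ q : σ, ∃ u : List S, (∃ u' : List S, M.evalFrom q u' ∈ M.accept) →
      M.evalFrom q u ∈ M.accept := by
    intro q
    by_cases h : ∃ u' : List S, M.evalFrom q u' ∈ M.accept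
    · obtain ⟨u, hu⟩ := h
      exact ⟨u, fun _ => hu⟩
    · exact ⟨[], fun h' => absurd h' h⟩
  choose u hu using hu
  set N : ℕ := Finset.univ.sup (fun q => (u q).length) with hN
  have huN : ∀ q, (u q).length ≤ N := fun q =>
    Finset.le_sup (f := fun q => (u q).length) (Finset.mem_univ q)
  refine ⟨Fintype.card σ * (C * (2 * S.card + 1) ^ N), fun n => ?_⟩
  set A : Set (List S) := {w : List S | w ∈ prefixes (M.accepts : Set (List S)) ∧
      w.length = n} with hAdef
  have hA : A.Finite := (hfin n).subset (fun w hw => hw.2)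
  rw [Set.ncard_eq_toFinset_card A hA,
    Finset.card_eq_sum_card_fiberwise (f := fun w => M.eval w) (t := Finset.univ) (fun _ _ => Finset.mem_univ _)]
  refine (Finset.sum_le_card_nsmul _ _ (C * (2 * S.card + 1) ^ N * (ball (Cay S) 1 n).ncard) ?_).trans
    (le_of_eq (by rw [smul_eq_mul, Finset.card_univ]; ring))
  intro q _
  rcases (hA.toFinset.filter (fun w => M.eval w = q)).eq_empty_or_nonempty with hq | ⟨w0, hw0⟩
  · rw [hq]
    exact Nat.zero_le _
  · rw [Finset.mem_filter, Set.Finite.mem_toFinset] at hw0
    obtain ⟨⟨⟨u0, hu0⟩, -⟩, hwq⟩ := hw0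
    have hu' : M.evalFrom q (u q) ∈ M.accept := by
      apply hu q
      refine ⟨u0, ?_⟩
      have h1 : M.eval (w0 ++ u0) ∈ M.accept := hu0
      have h2 : M.eval (w0 ++ u0) = M.evalFrom (M.eval w0) u0 := M.evalFrom_of_append M.start w0 u0
      rw [h2, hwq] at h1
      exact h1
    set B : Set (List S) := {w : List S | w ∈ M.accepts ∧ w.length = n + (u q).length} with hBdef
    have hB : B.Finite := (hfin _).subset (fun w hw => hw.2)
    have h3 : (hA.toFinset.filter (fun w => M.eval w = q)).card ≤ B.ncard := by
      rw [Set.ncard_eq_toFinset_card _ hB]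
      refine Finset.card_le_card_of_injOn (fun w => w ++ u q) ?_ ?_
      · intro w hw
        have hw' := Finset.mem_coe.1 hw
        rw [Finset.mem_filter, Set.Finite.mem_toFinset] at hw'
        obtain ⟨⟨-, hl⟩, hwq'⟩ := hw'
        refine Finset.mem_coe.2 ((Set.Finite.mem_toFinset hB).2 ⟨?_, ?_⟩)
        · have h2 : M.eval (w ++ u q) = M.evalFrom (M.eval w) (u q) :=
            M.evalFrom_of_append M.start w (u q)
          have h3 : M.eval (w ++ u q) ∈ M.accept := by
            rw [h2, hwq']
            exact hu'
          exact h3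
        · rw [List.length_append, hl]
      · intro w _ w' _ h
        exact List.append_left_injective (u q) h
    calc (hA.toFinset.filter (fun w => M.eval w = q)).card ≤ B.ncard := h3
      _ ≤ C * (ball (Cay S) 1 (n + (u q).length)).ncard := hC _
      _ ≤ C * ((2 * S.card + 1) ^ (u q).length * (ball (Cay S) 1 n).ncard) := by
          gcongr
          exact ncard_ball_add_le (cay_connected S hS) (cay_degree S) 1 n (u q).length
      _ ≤ C * ((2 * S.card + 1) ^ N * (ball (Cay S) 1 n).ncard) := by
          gcongr
          · omega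
          · exact huN q
      _ = _ := by ring

/-- PROOF.  `verts 1` is injective and `u ↦ verts 1 (w ++ u)` is a bijection from the right hand set onto the
set of `grow` (the words of the image which begin with `verts 1 w` are the `verts 1 w'` with `w <+: w'`:
`verts_prefix`, injectivity); `w ++ u` is a prefix of a word of `M.accepts` iff
`M.evalFrom (M.eval w) (u ++ u') ∈ M.accept` for some `u'`. -/
theorem grow_verts (M : DFA S σ) (w : List S) (l : ℕ) :
    grow (verts (1 : Γ) '' prefixes (M.accepts : Set (List S))) (verts 1 w) l =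
      {u : List S | u.length = l ∧ ∃ u' : List S, M.evalFrom (M.eval w) (u ++ u') ∈ M.accept}.ncard := by
  have hinj : Function.Injective (fun u : List S => verts (1 : Γ) (w ++ u)) := by
    intro u u' h
    exact List.append_right_injective w (verts_injective (1 : Γ) h)
  rw [← Set.ncard_image_of_injective _ hinj]
  unfold grow
  congr 1
  ext v
  constructor
  · rintro ⟨⟨w', ⟨u0, hu0⟩, rfl⟩, ⟨b, hb⟩, hlen⟩
    obtain ⟨w1, w2, hw12, hw1⟩ := verts_prefix (1 : Γ) w' (verts 1 w) b hb
    have hw : w = w1 := verts_injective (1 : Γ) hw1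
    subst hw
    subst hw12
    rw [verts_length, verts_length, List.length_append] at hlen
    refine ⟨w2, ⟨by omega, u0, ?_⟩, rfl⟩
    have h1 : M.eval (w ++ w2 ++ u0) ∈ M.accept := hu0
    have h2 : M.eval (w ++ (w2 ++ u0)) = M.evalFrom (M.eval w) (w2 ++ u0) := M.evalFrom_of_append M.start w (w2 ++ u0)
    rw [List.append_assoc, h2] at h1
    exact h1
  · rintro ⟨u, ⟨hl, u', hu'⟩, rfl⟩
    refine ⟨⟨w ++ u, ⟨u', ?_⟩, rfl⟩, ?_, ?_⟩
    · have h2 : M.eval (w ++ (u ++ u')) = M.evalFrom (M.eval w) (u ++ u') := M.evalFrom_of_append M.start w (u ++ u')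
      have h3 : M.eval (w ++ u ++ u') ∈ M.accept := by
        rw [List.append_assoc, h2]
        exact hu'
      exact h3
    · change verts (1 : Γ) w <+: verts (1 : Γ) (w ++ u)
      rw [verts_append]
      exact List.prefix_append _ _
    · change (verts (1 : Γ) (w ++ u)).length = (verts (1 : Γ) w).length + l
      rw [verts_length, verts_length, List.length_append, hl]

end Pool.Agent.FGT
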