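import Pool.Agent.FGT.Main
import Pool.Agent.FGT.CayA
import Pool.Agent.FGT.CayC

set_option autoImplicit false

namespace Pool.Agent.FGT

open Pool.Agent.MP_515f4e_co

/-- (C).  `main` for `G = Cay S`, `R = {1}`, `L 1 = verts 1 '' prefixes M.accepts`,
`Q = Fintype.card σ`, `F i l` the right hand side of `grow_verts` for the state
`(Fintype.equivFin σ).symm i`. -/
theorem cay_main {Γ : Type} [Group Γ] [Infinite Γ] (S : Finset Γ)
    (hS : Subgroup.closure (S : Set Γ) = ⊤) (h1 : (1 : Γ) ∉ S) {c : ℝ} (hc0 : 0 < c)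
    (hexp : BallsExpand (Cay S) c) {σ : Type} [Fintype σ] (M : DFA S σ) (C : ℕ)
    (hC : ∀ n : ℕ, {w : List S | w ∈ M.accepts ∧ w.length = n}.ncard ≤
      C * (ball (Cay S) 1 n).ncard)
    (hrep : ∀ n : ℕ, (ball (Cay S) 1 n).ncard ≤ C * {g : Γ | ∃ w : List S, w ∈ M.accepts ∧
      w.length ≤ n ∧ (w.map Subtype.val).prod = g}.ncard) : False := by
  have hfinlen : ∀ n : ℕ, {w : List S | w.length = n}.Finite := fun n => List.finite_length_eq S n
  have hinj : Function.Injective (verts (S := S) (1 : Γ)) := verts_injective 1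
  have hconn := cay_connected S hS
  have hdeg := cay_degree S
  obtain ⟨C', hC'⟩ := prefix_count hS M C hC
  set K : ℕ := C + C' + 1 with hK
  have hself : ∀ m : ℕ, m ≤ K * m := fun m => by
    rw [hK]
    nlinarith [Nat.zero_le ((C + C') * m)]
  have hwalk : ∀ w ∈ verts (S := S) (1 : Γ) '' prefixes (M.accepts : Set (List S)),
      List.IsChain (Cay S).Adj ((1 : Γ) :: w) := by
    rintro w ⟨u, -, rfl⟩
    exact verts_chain h1 1 u
  refine main hconn (D := 2 * S.card) hdeg hc0 hexp {(1 : Γ)} K ?_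
    (fun _ => verts 1 '' prefixes (M.accepts : Set (List S))) ?_ ?_ ?_ (Q := Fintype.card σ)
    (fun i l => {u : List S | u.length = l ∧
      ∃ u' : List S, M.evalFrom ((Fintype.equivFin σ).symm i) (u ++ u') ∈ M.accept}.ncard) ?_
  · intro x l
    refine ⟨1, rfl, ?_⟩
    rw [cay_ball S hS x l]
    exact hself _
  · intro v hv
    obtain rfl : v = 1 := hv
    refine ⟨hwalk, ?_⟩
    rintro w u ⟨t, ⟨r, hr⟩, ht⟩
    obtain ⟨w1, w2, rfl, hw⟩ := verts_prefix (1 : Γ) t w u ht.symm
    refine ⟨w1, ⟨w2 ++ r, ?_⟩, hw.symm⟩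
    rwa [← List.append_assoc]
  · intro v hv n
    obtain rfl : v = 1 := hv
    have himg : {w : List Γ | w ∈ verts (S := S) 1 '' prefixes (M.accepts : Set (List S)) ∧
        w.length = n} =
        verts (S := S) 1 '' {w : List S | w ∈ prefixes (M.accepts : Set (List S)) ∧
          w.length = n} := by
      ext w
      constructor
      · rintro ⟨⟨u, hu, rfl⟩, hlen⟩
        refine ⟨u, ⟨hu, ?_⟩, rfl⟩
        rwa [verts_length] at hlen
      · rintro ⟨u, ⟨hu, hlen⟩, rfl⟩
        refine ⟨⟨u, hu, rfl⟩, ?_⟩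
        rwa [verts_length]
    rw [himg, Set.ncard_image_of_injective _ hinj]
    refine (hC' n).trans (Nat.mul_le_mul_right _ ?_)
    omega
  · intro v hv n
    obtain rfl : v = 1 := hv
    have hsub : {g : Γ | ∃ w : List S, w ∈ M.accepts ∧ w.length ≤ n ∧
        (w.map Subtype.val).prod = g} ⊆
        {z : Γ | ∃ w ∈ verts (S := S) 1 '' prefixes (M.accepts : Set (List S)),
          w.length ≤ n ∧ w.getLastD 1 = z} := by
      rintro g ⟨w, hw, hl, rfl⟩
      refine ⟨verts 1 w, ⟨w, ⟨[], ?_⟩, rfl⟩, ?_, ?_⟩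
      · rw [List.append_nil]
        exact hw
      · rwa [verts_length]
      · rw [verts_getLastD, one_mul]
    have hfin : {z : Γ | ∃ w ∈ verts (S := S) 1 '' prefixes (M.accepts : Set (List S)),
          w.length ≤ n ∧ w.getLastD 1 = z}.Finite := by
      refine (ball_finite hconn hdeg 1 n).subset ?_
      rintro z ⟨w, hw, hl, rfl⟩
      have h2 := take_dist hconn (1 : Γ) w (hwalk w hw) 0 n
      rw [Nat.zero_add, List.take_zero, List.take_of_length_le hl] at h2
      exact h2
    refine (hrep n).trans ?_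
    refine Nat.mul_le_mul ?_ (Set.ncard_le_ncard hsub hfin)
    omega
  · intro v hv w hw
    obtain ⟨u, hu, rfl⟩ := hw
    refine ⟨Fintype.equivFin σ (M.eval u), fun l => ?_⟩
    rw [grow_verts, Equiv.symm_apply_apply]
    exact ⟨hself _, hself _⟩

end Pool.Agent.FGT
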