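import Pool.Agent.FGT.Defs

set_option autoImplicit false

namespace Pool.Agent.FGT

open Pool.Agent.MP_515f4e_co

/-- the (undirected) Cayley graph of `Γ` with respect to `S`: `g` and `h` are adjacent if `g ≠ h` and
`g⁻¹ * h ∈ S` or `h⁻¹ * g ∈ S` -/
def Cay {Γ : Type} [Group Γ] (S : Finset Γ) : SimpleGraph Γ :=
  SimpleGraph.fromRel (fun g h => g⁻¹ * h ∈ S)

/-- the vertices passed by the word `w` read from `g` -/
def verts {Γ : Type} [Group Γ] {S : Finset Γ} : Γ → List S → List Γ
  | _, [] => []
  | g, s :: w => (g * (s : Γ)) :: verts (g * (s : Γ)) w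

/-- the prefixes of the words of `L` -/
def prefixes {A : Type} (L : Set (List A)) : Set (List A) := {w | ∃ u, w ++ u ∈ L}

end Pool.Agent.FGT
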