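import Pool.Agent.FGT.Defs

set_option autoImplicit false

namespace Pool.Agent.FGT

open Finset Pool.Agent.MP_515f4e_co

open Classical in
/-- THICK CHAINS.  PROOF.  For `a ∈ I`, `i < M` write `A' = fball hc hD (γ a ((i+1)*k)) (n-(i+1)*k)`,
`A = fball hc hD (γ a (i*k)) (n-i*k)`; `A' ⊆ A` (triangle inequality, `hγ`, `hM`) and `γ a n ∈ A'`.
Let `G_i` be the filtered set of `hgood`, `E_i = {a ∈ I : γ a n ∈ A' ∧ γ a n ∉ deep G A' A R}` (the
condition of `exits_le` in Pool/Agent/MP_515f4e_co/Count.lean).  `G_i ⊆ E_i ∪ H_i` with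
`H_i = {a ∈ G_i : γ a n ∈ deep G A' A R}`.
(1) `4 * |H_i| ≤ |I|`: split `H_i` by the label `q = p a ((i+1)*k)`.  All `a ∈ I` with the same label
have the same `A'` and `A` (`hp`).  For a label `q` which occurs in `H_i`, the members of `H_i` with
label `q` have `γ a n ∈ deep G A' A R`, so by `hmult` their number is at most
`C * |deep G A' A R|`, and `(1 + c)^R * |deep| ≤ |A'|` (`card_deep_le`; `2 |A'| ≤ |A|` by
goodness), `δ * |A'| ≤ #{b ∈ I : p b ((i+1)*k) = q}` by goodness; with `hR` the number is at most a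
quarter of `#{b ∈ I : p b ((i+1)*k) = q}`.  Sum over the labels (`Finset.card_eq_sum_card_image` or
`card_eq_sum_card_fiberwise`).
(2) Hence `|I| ≤ 2 * |E_i|` for every `i < M`, so `M * |I| ≤ 2 * ∑ i, |E_i|
= 2 * ∑ a ∈ I, #{i < M : a ∈ E_i} ≤ 2 * |I| * (D+1)^R` by `exits_le` (applied to `γ a`, `y = γ a n`).
Divide by `|I| > 0`.  (For `a ∉ I` nothing is known about `γ a`.) -/
theorem chain {V : Type} {G : SimpleGraph V} (hc : G.Connected) {D : ℕ}
    (hD : ∀ v, (G.neighborSet v).encard ≤ D) {c : ℝ} (hc0 : 0 < c) (hexp : BallsExpand G c)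
    {ι κ : Type} (I : Finset ι) (hI : I.Nonempty) (γ : ι → ℕ → V) (p : ι → ℕ → κ)
    (n k M R C : ℕ) (δ : ℝ) (hδ : 0 < δ)
    (hγ : ∀ a ∈ I, ∀ i l, G.dist (γ a i) (γ a (i + l)) ≤ l)
    (hp : ∀ a ∈ I, ∀ b ∈ I, ∀ i j, j ≤ i → p a i = p b i → γ a j = γ b j)
    (hmult : ∀ z, (I.filter (fun a => γ a n = z)).card ≤ C)
    (hM : M * k ≤ n) (hR : 4 * (C : ℝ) ≤ δ * (1 + c) ^ R)
    (hgood : ∀ i < M, 3 * (I.card : ℝ) ≤ 4 * ((I.filter (fun a =>
        2 * (ball G (γ a ((i + 1) * k)) (n - (i + 1) * k)).ncard ≤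
          (ball G (γ a (i * k)) (n - i * k)).ncard ∧
        δ * ((ball G (γ a ((i + 1) * k)) (n - (i + 1) * k)).ncard : ℝ) ≤
          ((I.filter (fun b => p b ((i + 1) * k) = p a ((i + 1) * k))).card : ℝ))).card : ℝ)) :
    M ≤ 2 * (D + 1) ^ R := by
  set A : ℕ → ι → Finset V := fun i a => fball hc hD (γ a (i * k)) (n - i * k) with hAdef
  have hAcard : ∀ i a, (A i a).card = (ball G (γ a (i * k)) (n - i * k)).ncard := fun i a =>
    card_fball hc hD _ _
  have hik : ∀ i, i < M → (i + 1) * k ≤ n := fun i hi => (Nat.mul_le_mul_right k hi).trans hM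
  have hsub : ∀ i, i < M → ∀ a ∈ I, A (i + 1) a ⊆ A i a := by
    intro i hi a ha z hz
    have h1 := hik i hi
    have h2 : G.dist (γ a (i * k)) (γ a ((i + 1) * k)) ≤ k := by
      have := hγ a ha (i * k) k
      rwa [← Nat.succ_mul] at this
    have h3 : (i + 1) * k = i * k + k := Nat.succ_mul i k
    have h4 : G.dist (γ a (i * k)) (γ a ((i + 1) * k)) + (n - (i + 1) * k) ≤ n - i * k := by omega
    have h5 := ball_subset hc h4
    rw [mem_fball] at hz ⊢
    exact h5 hz
  have hy : ∀ i, i < M → ∀ a ∈ I, γ a n ∈ A (i + 1) a := by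
    intro i hi a ha
    have h1 := hik i hi
    have h2 := hγ a ha ((i + 1) * k) (n - (i + 1) * k)
    rw [Nat.add_sub_cancel' h1] at h2
    exact (mem_fball hc hD).2 h2
  -- the exits
  set E : ℕ → Finset ι := fun i => I.filter (fun a => γ a n ∈ A (i + 1) a ∧
    γ a n ∉ deep G (A (i + 1) a) (A i a) R) with hE
  have key : ∀ i, i < M → I.card ≤ 2 * (E i).card := by
    intro i hi
    set Gd : Finset ι := I.filter (fun a =>
        2 * (ball G (γ a ((i + 1) * k)) (n - (i + 1) * k)).ncard ≤
          (ball G (γ a (i * k)) (n - i * k)).ncard ∧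
        δ * ((ball G (γ a ((i + 1) * k)) (n - (i + 1) * k)).ncard : ℝ) ≤
          ((I.filter (fun b => p b ((i + 1) * k) = p a ((i + 1) * k))).card : ℝ)) with hGd
    set H : Finset ι := Gd.filter (fun a => γ a n ∈ deep G (A (i + 1) a) (A i a) R) with hH
    have hGE : Gd ⊆ E i ∪ H := by
      intro a ha
      have haI : a ∈ I := (mem_filter.1 ha).1
      by_cases h1 : γ a n ∈ deep G (A (i + 1) a) (A i a) R
      · exact mem_union_right _ (mem_filter.2 ⟨ha, h1⟩)
      · exact mem_union_left _ (mem_filter.2 ⟨haI, hy i hi a haI, h1⟩)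
    have hH4 : 4 * H.card ≤ I.card := by
      set f : ι → κ := fun a => p a ((i + 1) * k) with hf
      have hHI : ∀ a ∈ H, a ∈ I := fun a ha => (mem_filter.1 (mem_filter.1 ha).1).1
      rw [card_eq_sum_card_fiberwise (f := f) (s := H) (t := I.image f)
        (fun a ha => mem_coe.2 (mem_image_of_mem f (hHI a (mem_coe.1 ha)))),
        card_eq_sum_card_fiberwise (f := f) (s := I) (t := I.image f)
        (fun a ha => mem_coe.2 (mem_image_of_mem f (mem_coe.1 ha))), mul_sum]
      refine sum_le_sum fun q _ => ?_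
      rcases (H.filter (fun a => f a = q)).eq_empty_or_nonempty with h0 | ⟨a₀, ha₀⟩
      · rw [h0]
        simp
      · obtain ⟨ha₀H, ha₀q⟩ := mem_filter.1 ha₀
        have ha₀G := (mem_filter.1 ha₀H).1
        have ha₀I := hHI a₀ ha₀H
        obtain ⟨-, hg1, hg2⟩ := mem_filter.1 ha₀G
        have hsame : ∀ a ∈ I, f a = q → A (i + 1) a = A (i + 1) a₀ ∧ A i a = A i a₀ := by
          intro a ha hq
          have h1 : p a ((i + 1) * k) = p a₀ ((i + 1) * k) := by
            have h2 : f a = f a₀ := hq.trans ha₀q.symm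
            exact h2
          have h2 := hp a ha a₀ ha₀I ((i + 1) * k) ((i + 1) * k) le_rfl h1
          have h3 := hp a ha a₀ ha₀I ((i + 1) * k) (i * k)
            (Nat.mul_le_mul_right k (Nat.le_succ i)) h1
          refine ⟨?_, ?_⟩
          · simp only [hAdef, h2]
          · simp only [hAdef, h3]
        set T := deep G (A (i + 1) a₀) (A i a₀) R with hT
        have hHT : (H.filter (fun a => f a = q)).card ≤ T.card * C := by
          have h1 : H.filter (fun a => f a = q) ⊆
              T.biUnion (fun z => I.filter (fun a => γ a n = z)) := by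
            intro a ha
            obtain ⟨haH, haq⟩ := mem_filter.1 ha
            have haI := hHI a haH
            have h2 := (mem_filter.1 haH).2
            obtain ⟨e1, e2⟩ := hsame a haI haq
            rw [e1, e2] at h2
            exact mem_biUnion.2 ⟨γ a n, h2, mem_filter.2 ⟨haI, rfl⟩⟩
          exact (card_le_card h1).trans (card_biUnion_le_card_mul _ _ _ fun z _ => hmult z)
        have hdeep : (1 + c) ^ R * (T.card : ℝ) ≤ ((A (i + 1) a₀).card : ℝ) :=
          card_deep_le hc hD hc0 hexp (γ a₀ (i * k)) (n - i * k) (A (i + 1) a₀)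
            (hsub i hi a₀ ha₀I) (by rw [hAcard]; exact hg1) R
        have hlabel : (I.filter (fun b => p b ((i + 1) * k) = p a₀ ((i + 1) * k))).card =
            (I.filter (fun a => f a = q)).card := by
          congr 1
          refine filter_congr fun b _ => ?_
          rw [← ha₀q]
        rw [hlabel, ← hAcard] at hg2
        have h5 : (4 * (H.filter (fun a => f a = q)).card : ℝ) ≤
            ((I.filter (fun a => f a = q)).card : ℝ) := by
          have h6 : ((H.filter (fun a => f a = q)).card : ℝ) ≤ T.card * C := by exact_mod_cast hHT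
          have hT0 : (0 : ℝ) ≤ T.card := Nat.cast_nonneg _
          calc (4 * (H.filter (fun a => f a = q)).card : ℝ) ≤ 4 * (T.card * C) := by linarith
            _ = (4 * (C : ℝ)) * T.card := by ring
            _ ≤ (δ * (1 + c) ^ R) * T.card := mul_le_mul_of_nonneg_right hR hT0
            _ = δ * ((1 + c) ^ R * T.card) := by ring
            _ ≤ δ * (A (i + 1) a₀).card := mul_le_mul_of_nonneg_left hdeep hδ.le
            _ ≤ _ := hg2
        exact_mod_cast h5
    have h1 := (card_le_card hGE).trans (card_union_le _ _)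
    have h2 : 3 * I.card ≤ 4 * Gd.card := by
      have := hgood i hi
      exact_mod_cast this
    omega
  have hdc : ∑ i ∈ range M, (E i).card =
      ∑ a ∈ I, ((range M).filter (fun i => γ a n ∈ A (i + 1) a ∧
        γ a n ∉ deep G (A (i + 1) a) (A i a) R)).card := by
    simp only [hE, card_filter]
    exact sum_comm
  have hex : ∀ a ∈ I, ((range M).filter (fun i => γ a n ∈ A (i + 1) a ∧
      γ a n ∉ deep G (A (i + 1) a) (A i a) R)).card ≤ (D + 1) ^ R := by
    intro a ha
    exact exits_le hc hD (γ a) (γ a n) n k R M hM (hγ a ha)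
  have h1 : M * I.card ≤ 2 * ∑ i ∈ range M, (E i).card := by
    calc M * I.card = ∑ _i ∈ range M, I.card := by simp
      _ ≤ ∑ i ∈ range M, 2 * (E i).card := sum_le_sum fun i hi => key i (mem_range.1 hi)
      _ = _ := by rw [mul_sum]
  have h2 : ∑ i ∈ range M, (E i).card ≤ I.card * (D + 1) ^ R := by
    rw [hdc]
    calc _ ≤ ∑ _a ∈ I, (D + 1) ^ R := sum_le_sum hex
      _ = _ := by simp
  have h3 : M * I.card ≤ (2 * (D + 1) ^ R) * I.card := by
    calc M * I.card ≤ 2 * ∑ i ∈ range M, (E i).card := h1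
      _ ≤ 2 * (I.card * (D + 1) ^ R) := Nat.mul_le_mul_left 2 h2
      _ = _ := by ring
  exact Nat.le_of_mul_le_mul_right h3 hI.card_pos

end Pool.Agent.FGT
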