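import Pool.Agent.MP_515f4e_co.Count

set_option autoImplicit false

namespace Pool.Agent.FGT

open Pool.Agent.MP_515f4e_co

/-- the number of words of `L` of length `|w| + l` that begin with `w` -/
noncomputable def grow {A : Type} (L : Set (List A)) (w : List A) (l : ℕ) : ℕ :=
  {u : List A | u ∈ L ∧ w <+: u ∧ u.length = w.length + l}.ncard

/-- a prefix-closed system of walks of `G` starting at `v` (a word `w = [x₁, …, x_n]` stands for the
walk `v, x₁, …, x_n`) -/
structure WalkSys {V : Type} (G : SimpleGraph V) (v : V) (L : Set (List V)) : Prop where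
  walk : ∀ w ∈ L, List.IsChain G.Adj (v :: w)
  pre : ∀ w u : List V, w ++ u ∈ L → w ∈ L

end Pool.Agent.FGT
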