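import Pool.Agent.FGT.Defs

set_option autoImplicit false

namespace Pool.Agent.FGT

open Pool.Agent.MP_515f4e_co

variable {V : Type} {G : SimpleGraph V}

/-- Induction on `n`, generalising `v`: `w = a :: w'` with `G.Adj v a` and `a :: w'` a chain; the set is
the union over the finite set of neighbours `a` of `v` of the images under `List.cons a`. -/
theorem walks_finite {D : ℕ} (hD : ∀ v, (G.neighborSet v).encard ≤ D) (v : V) (n : ℕ) :
    {w : List V | List.IsChain G.Adj (v :: w) ∧ w.length = n}.Finite := by
  induction n generalizing v with
  | zero =>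
    refine (Set.finite_singleton ([] : List V)).subset ?_
    rintro w ⟨-, hw⟩
    exact List.eq_nil_of_length_eq_zero hw
  | succ n ih =>
    have hf : (G.neighborSet v).Finite := by
      refine Set.encard_lt_top_iff.1 (lt_of_le_of_lt (hD v) ?_)
      exact ENat.natCast_lt_top D
    refine (Set.Finite.biUnion hf (fun a _ => (ih a).image (List.cons a))).subset ?_
    rintro w ⟨hw, hl⟩
    cases w with
    | nil => simp at hl
    | cons a w' =>
      rw [List.isChain_cons_cons] at hw
      rw [Set.mem_iUnion₂]
      refine ⟨a, hw.1, w', ⟨hw.2, ?_⟩, rfl⟩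
      rw [List.length_cons] at hl
      omega

theorem GrA_last (v : V) (w : List V) (j : ℕ) (hj : j ≤ w.length) :
    (w.take j).getLastD v = (v :: w)[j]'(by rw [List.length_cons]; omega) := by
  cases j with
  | zero => rfl
  | succ j =>
    have h1 : w.take (j + 1) = w.take j ++ [w[j]] := by
      rw [List.take_succ_eq_append_getElem (by omega)]
    rw [h1, List.getLastD_concat, List.getElem_cons_succ]

theorem GrA_step (v : V) (w : List V) (hw : List.IsChain G.Adj (v :: w)) (j : ℕ) :
    G.dist ((w.take j).getLastD v) ((w.take (j + 1)).getLastD v) ≤ 1 := by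
  rcases Nat.lt_or_ge j w.length with h | h
  · rw [GrA_last v w j (by omega), GrA_last v w (j + 1) (by omega)]
    have h2 := List.isChain_iff_getElem.1 hw j (by rw [List.length_cons]; omega)
    exact (SimpleGraph.dist_eq_one_iff_adj.2 h2).le
  · rw [List.take_of_length_le h, List.take_of_length_le (by omega), SimpleGraph.dist_self]
    exact Nat.zero_le _

/-- The endpoints of the prefixes of a walk: `i ↦ (w.take i).getLastD v`.  Induction on `l`; one step:
either `i + l ≥ w.length` (same prefix) or `w.take (i+l+1) = w.take (i+l) ++ [w[i+l]]` and the chain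
condition gives adjacency of the last vertex of `v :: w.take (i+l)` and `w[i+l]`. -/
theorem take_dist (hc : G.Connected) (v : V) (w : List V) (hw : List.IsChain G.Adj (v :: w))
    (i l : ℕ) : G.dist ((w.take i).getLastD v) ((w.take (i + l)).getLastD v) ≤ l := by
  induction l with
  | zero => rw [Nat.add_zero, SimpleGraph.dist_self]
  | succ l ih =>
    have h1 : G.dist ((w.take (i + l)).getLastD v) ((w.take (i + (l + 1))).getLastD v) ≤ 1 := by
      rw [← Nat.add_assoc]
      exact GrA_step v w hw (i + l)
    have h2 := hc.dist_triangle (u := (w.take i).getLastD v) (v := (w.take (i + l)).getLastD v)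
      (w := (w.take (i + (l + 1))).getLastD v)
    omega

end Pool.Agent.FGT
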