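import Pool.Agent.FGT.GrA

set_option autoImplicit false

namespace Pool.Agent.FGT

open Pool.Agent.MP_515f4e_co

variable {V : Type} {G : SimpleGraph V}

private theorem GrB_fin {D : ℕ} (hD : ∀ v, (G.neighborSet v).encard ≤ D) {v : V}
    {L : Set (List V)} (hL : WalkSys G v L) (w : List V) (l : ℕ) :
    {u : List V | u ∈ L ∧ w <+: u ∧ u.length = w.length + l}.Finite :=
  (walks_finite hD v (w.length + l)).subset fun u hu => ⟨hL.walk u hu.1, hu.2.2⟩

private theorem GrB_step {D : ℕ} (hD : ∀ v, (G.neighborSet v).encard ≤ D) {v : V}
    {L : Set (List V)} (hL : WalkSys G v L) (w : List V) (l : ℕ) :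
    grow L w (l + 1) ≤ D * grow L w l := by
  classical
  have hfin : ∀ u, (G.neighborSet u).Finite := fun u => Set.finite_of_encard_le_coe (hD u)
  set S := (GrB_fin hD hL w l).toFinset with hS
  set T := (GrB_fin hD hL w (l + 1)).toFinset with hT
  have e1 : grow L w l = S.card := by
    unfold grow
    rw [Set.ncard_eq_toFinset_card _ (GrB_fin hD hL w l)]
  have e2 : grow L w (l + 1) = T.card := by
    unfold grow
    rw [Set.ncard_eq_toFinset_card _ (GrB_fin hD hL w (l + 1))]
  rw [e1, e2]
  have hsub : T ⊆ S.biUnion fun u => ((hfin (u.getLastD v)).toFinset).image fun a => u ++ [a] := by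
    intro u hu
    rw [hT, Set.Finite.mem_toFinset] at hu
    obtain ⟨huL, hwu, hlen⟩ := hu
    have hne : u ≠ [] := by
      intro h
      rw [h] at hlen
      simp at hlen
    have hd : u.dropLast ++ [u.getLast hne] = u := List.dropLast_append_getLast hne
    have hdL : u.dropLast ∈ L := hL.pre _ [u.getLast hne] (by rw [hd]; exact huL)
    have hdl : u.dropLast.length = w.length + l := by
      rw [List.length_dropLast, hlen]
      omega
    have hdw : w <+: u.dropLast :=
      List.prefix_of_prefix_length_le hwu (List.dropLast_prefix u) (by omega)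
    have hch : List.IsChain G.Adj ((v :: u.dropLast) ++ [u.getLast hne]) := by
      have := hL.walk u huL
      rw [← hd] at this
      simpa using this
    have hadj : G.Adj (u.dropLast.getLastD v) (u.getLast hne) := by
      rw [List.isChain_append] at hch
      refine hch.2.2 _ ?_ _ ?_
      · rw [List.getLast?_cons, List.getLastD_eq_getLast?]
        simp
      · simp
    rw [Finset.mem_biUnion]
    refine ⟨u.dropLast, ?_, ?_⟩
    · rw [hS, Set.Finite.mem_toFinset]
      exact ⟨hdL, hdw, hdl⟩
    · rw [Finset.mem_image]
      refine ⟨u.getLast hne, ?_, hd⟩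
      rw [Set.Finite.mem_toFinset]
      exact hadj
  calc T.card ≤ _ := Finset.card_le_card hsub
    _ ≤ S.card * D := by
        refine Finset.card_biUnion_le_card_mul _ _ _ fun u _ => ?_
        refine le_trans Finset.card_image_le ?_
        have h1 := hD (u.getLastD v)
        rw [(hfin (u.getLastD v)).encard_eq_coe_toFinset_card] at h1
        exact_mod_cast h1
    _ = D * S.card := mul_comm _ _

/-- `grow` grows at most by the factor `D` per step: a word `u ∈ L` of length `|w| + (l+1)` that begins
with `w` is `u' ++ [a]` with `u' ∈ L` (`pre`), `w <+: u'`, `|u'| = |w| + l`, and `a` is adjacent to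
the last vertex of `v :: u'`; for given `u'` there are at most `D` such `a`.  (`grow` is an `ncard` of a
finite set by `walks_finite`.)  Then induction on `k`. -/
theorem grow_add_le {D : ℕ} (hD : ∀ v, (G.neighborSet v).encard ≤ D) {v : V}
    {L : Set (List V)} (hL : WalkSys G v L) (w : List V) (l k : ℕ) :
    grow L w (l + k) ≤ D ^ k * grow L w l := by
  induction k with
  | zero => simp
  | succ k ih =>
    calc grow L w (l + (k + 1)) ≤ D * grow L w (l + k) := GrB_step hD hL w (l + k)
      _ ≤ D * (D ^ k * grow L w l) := Nat.mul_le_mul_left _ ih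
      _ = D ^ (k + 1) * grow L w l := by ring

end Pool.Agent.FGT
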