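import Pool.Agent.FGT.GrB

set_option autoImplicit false

namespace Pool.Agent.FGT

open Pool.Agent.MP_515f4e_co

variable {V : Type} {G : SimpleGraph V}

theorem level_finite {D : ℕ} (hD : ∀ v, (G.neighborSet v).encard ≤ D) {v : V}
    {L : Set (List V)} (hL : WalkSys G v L) (n : ℕ) :
    {u : List V | u ∈ L ∧ u.length = n}.Finite :=
  (walks_finite hD v n).subset fun u hu => ⟨hL.walk u hu.1, hu.2⟩

/-- The words of `L` of length `n`: at most `D ^ n` of them. -/
theorem card_level_le {D : ℕ} (hD : ∀ v, (G.neighborSet v).encard ≤ D) {v : V}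
    {L : Set (List V)} (hL : WalkSys G v L) (n : ℕ) :
    {w : List V | w ∈ L ∧ w.length = n}.ncard ≤ D ^ n := by
  have h2 : {w : List V | w ∈ L ∧ w.length = n} =
      {u : List V | u ∈ L ∧ [] <+: u ∧ u.length = ([] : List V).length + n} := by
    ext u
    simp
  have h3 : {w : List V | w ∈ L ∧ w.length = n}.ncard = grow L [] n := by
    unfold grow
    rw [h2]
  have h4 := grow_add_le hD hL [] 0 n
  rw [Nat.zero_add] at h4
  have h5 : grow L [] 0 ≤ 1 := by
    unfold grow
    refine le_trans (Set.ncard_le_ncard (t := {([] : List V)}) ?_ (Set.finite_singleton _)) ?_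
    · rintro u ⟨-, -, hu⟩
      simpa using hu
    · rw [Set.ncard_singleton]
  rw [h3]
  calc grow L [] n ≤ D ^ n * grow L [] 0 := h4
    _ ≤ D ^ n * 1 := Nat.mul_le_mul_left _ h5
    _ = D ^ n := mul_one _

/-- The words of `L` of length exactly `n` have many endpoints. -/
theorem ends_ge [Infinite V] (hc : G.Connected) {D : ℕ} (hD : ∀ v, (G.neighborSet v).encard ≤ D)
    {c : ℝ} (hc0 : 0 < c) (hexp : BallsExpand G c) {v : V} {L : Set (List V)}
    (hL : WalkSys G v L) (C j0 : ℕ) (hj0 : 2 * (C : ℝ) ≤ (1 + c) ^ j0)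
    (hcov : ∀ n : ℕ, (ball G v n).ncard ≤
      C * {z : V | ∃ w ∈ L, w.length ≤ n ∧ w.getLastD v = z}.ncard) (n : ℕ) :
    (ball G v n).ncard ≤ 2 * C * (D + 1) ^ j0 *
      {z : V | ∃ w ∈ L, w.length = n ∧ w.getLastD v = z}.ncard := by
  classical
  have hgr : ∀ k : ℕ, (1 + c) ^ k * ((ball G v n).ncard : ℝ) ≤ ((ball G v (n + k)).ncard : ℝ) := by
    intro k
    induction k with
    | zero => simp
    | succ k ih =>
      have h1 := growth hc hD hexp v (n + k)
      have h2 : (0 : ℝ) < 1 + c := by linarith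
      calc (1 + c) ^ (k + 1) * ((ball G v n).ncard : ℝ)
          = (1 + c) * ((1 + c) ^ k * ((ball G v n).ncard : ℝ)) := by ring
        _ ≤ (1 + c) * ((ball G v (n + k)).ncard : ℝ) := by gcongr
        _ ≤ ((ball G v (n + (k + 1))).ncard : ℝ) := by
            have h3 : n + (k + 1) = n + k + 1 := by omega
            rw [h3]
            linarith
  set E : Set V := {z : V | ∃ w ∈ L, w.length = n ∧ w.getLastD v = z} with hE
  have hEfin : E.Finite := by
    refine ((level_finite hD hL n).image (fun w => w.getLastD v)).subset ?_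
    rintro z ⟨w, hw, hl, rfl⟩
    exact ⟨w, ⟨hw, hl⟩, rfl⟩
  set X : Set V := {z : V | ∃ w ∈ L, w.length ≤ n + j0 ∧ w.getLastD v = z} with hX
  have hsub : X ⊆ ((fball hc hD v n ∪ hEfin.toFinset.biUnion (fun e => fball hc hD e j0) :
      Finset V) : Set V) := by
    rintro z ⟨w, hw, hl, rfl⟩
    rw [Finset.coe_union]
    rcases Nat.lt_or_ge w.length n with h | h
    · left
      rw [Finset.mem_coe, mem_fball]
      have h1 := take_dist hc v w (hL.walk w hw) 0 n
      rw [Nat.zero_add, List.take_zero, List.take_of_length_le h.le] at h1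
      exact h1
    · right
      rw [Finset.mem_coe, Finset.mem_biUnion]
      refine ⟨(w.take n).getLastD v, ?_, ?_⟩
      · rw [Set.Finite.mem_toFinset]
        refine ⟨w.take n, hL.pre _ (w.drop n) ?_, ?_, rfl⟩
        · rw [List.take_append_drop]
          exact hw
        · rw [List.length_take]
          omega
      · rw [mem_fball]
        have h1 := take_dist hc v w (hL.walk w hw) n j0
        rwa [List.take_of_length_le (show w.length ≤ n + j0 by omega)] at h1
  have hXcard : X.ncard ≤ (ball G v n).ncard + E.ncard * (D + 1) ^ j0 := by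
    refine le_trans (Set.ncard_le_ncard hsub (Finset.finite_toSet _)) ?_
    rw [Set.ncard_coe_finset]
    refine le_trans (Finset.card_union_le _ _) ?_
    rw [card_fball]
    gcongr
    rw [Set.ncard_eq_toFinset_card _ hEfin]
    refine Finset.card_biUnion_le_card_mul _ _ _ fun e _ => ?_
    rw [card_fball]
    exact ncard_ball_le hc hD e j0
  have h1 := hcov (n + j0)
  have h2 := hgr j0
  have h3 : (0 : ℝ) ≤ ((ball G v n).ncard : ℝ) := by positivity
  have h4 : 2 * (C : ℝ) * ((ball G v n).ncard : ℝ) ≤ ((ball G v (n + j0)).ncard : ℝ) :=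
    le_trans (mul_le_mul_of_nonneg_right hj0 h3) h2
  have h4' : 2 * C * (ball G v n).ncard ≤ (ball G v (n + j0)).ncard := by exact_mod_cast h4
  have h5 : (ball G v (n + j0)).ncard ≤ C * ((ball G v n).ncard + E.ncard * (D + 1) ^ j0) :=
    h1.trans (Nat.mul_le_mul_left _ hXcard)
  have h6 : (ball G v n).ncard ≤ (ball G v (n + j0)).ncard :=
    ncard_ball_mono hc hD (ball_subset hc (by rw [SimpleGraph.dist_self]; omega))
  have h7 : C * ((ball G v n).ncard + E.ncard * (D + 1) ^ j0) =
    C * (ball G v n).ncard + C * (E.ncard * (D + 1) ^ j0) := Nat.mul_add _ _ _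
  have h8 : 2 * C * (ball G v n).ncard = 2 * (C * (ball G v n).ncard) := Nat.mul_assoc _ _ _
  have h9 : 2 * C * (D + 1) ^ j0 * E.ncard = 2 * (C * (E.ncard * (D + 1) ^ j0)) := by ring
  omega

end Pool.Agent.FGT
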