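import Pool.Agent.FGT.Defs

set_option autoImplicit false

namespace Pool.Agent.FGT

open Pool.Agent.MP_515f4e_co

variable {V : Type} {G : SimpleGraph V}

/-- Expansion makes the spheres large: `growth` (Pool/Agent/MP_515f4e_co/Balls.lean) gives
`(1+c) |B(v,n-1)| ≤ |B(v,n)|` for `n ≥ 1`, and `|S(v,n)| = |B(v,n)| - |B(v,n-1)|`.  For `n = 0` the
sphere is the ball. -/
theorem sphere_ge [Infinite V] (hc : G.Connected) {D : ℕ} (hD : ∀ v, (G.neighborSet v).encard ≤ D)
    {c : ℝ} (hc0 : 0 < c) (hexp : BallsExpand G c) (v : V) (n : ℕ) :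
    c * ((ball G v n).ncard : ℝ) ≤ (1 + c) * ({z : V | G.dist v z = n}.ncard : ℝ) := by
  rcases n with _ | m
  · have h : {z : V | G.dist v z = 0} = ball G v 0 := by
      ext z
      simp only [Set.mem_ofPred_eq, mem_ball, Nat.le_zero]
    rw [h]
    have : (0 : ℝ) ≤ ((ball G v 0).ncard : ℝ) := by positivity
    nlinarith
  · have h1 : {z : V | G.dist v z = m + 1} = ball G v (m + 1) \ ball G v m := by
      ext z
      simp only [Set.mem_ofPred_eq, Set.mem_sdiff, mem_ball]
      omega
    have hsub : ball G v m ⊆ ball G v (m + 1) := by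
      intro z hz
      rw [mem_ball] at *
      omega
    have h2 := Set.ncard_sdiff_add_ncard_of_subset hsub (ball_finite hc hD v (m + 1))
    rw [h1]
    have h3 := growth hc hD hexp v m
    have h4 : (((ball G v (m + 1) \ ball G v m).ncard : ℕ) : ℝ) + ((ball G v m).ncard : ℝ) =
        ((ball G v (m + 1)).ncard : ℝ) := by exact_mod_cast h2
    nlinarith

end Pool.Agent.FGT
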