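import Pool.Agent.FGT.Win
import Pool.Agent.FGT.Chain
import Pool.Agent.FGT.GrC

set_option autoImplicit false

namespace Pool.Agent.FGT

open Finset Pool.Agent.MP_515f4e_co

open Classical in
private theorem main_fiber {V : Type} {L : Set (List V)} (I : Finset (List V)) (n j : ℕ)
    (hI : ∀ w, w ∈ I ↔ w ∈ L ∧ w.length = n) (hj : j ≤ n) (u : List V) (hu : u.length = j) :
    (I.filter (fun b => b.take j = u)).card = grow L u (n - j) := by
  unfold grow
  rw [← Set.ncard_coe_finset]
  congr 1
  ext b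
  simp only [coe_filter, Set.mem_ofPred_eq, hI]
  constructor
  · rintro ⟨⟨h1, h2⟩, h3⟩
    refine ⟨h1, ?_, by omega⟩
    rw [List.prefix_iff_eq_take, hu]
    exact h3.symm
  · rintro ⟨h1, h2, h3⟩
    rw [List.prefix_iff_eq_take, hu] at h2
    exact ⟨⟨h1, by omega⟩, h2.symm⟩

/-- (B): a finite growth type system of walks is incompatible with uniform expansion of all balls. -/
theorem main {V : Type} {G : SimpleGraph V} [Infinite V] (hc : G.Connected) {D : ℕ}
    (hD : ∀ v, (G.neighborSet v).encard ≤ D) {c : ℝ} (hc0 : 0 < c) (hexp : BallsExpand G c)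
    (R : Set V) (C : ℕ)
    (hR : ∀ (x : V) (l : ℕ), ∃ v ∈ R, (ball G x l).ncard ≤ C * (ball G v l).ncard)
    (L : V → Set (List V)) (hL : ∀ v ∈ R, WalkSys G v (L v))
    (hlen : ∀ v ∈ R, ∀ n : ℕ, {w : List V | w ∈ L v ∧ w.length = n}.ncard ≤
      C * (ball G v n).ncard)
    (hcov : ∀ v ∈ R, ∀ n : ℕ, (ball G v n).ncard ≤
      C * {z : V | ∃ w ∈ L v, w.length ≤ n ∧ w.getLastD v = z}.ncard)
    {Q : ℕ} (F : Fin Q → ℕ → ℕ)
    (htype : ∀ v ∈ R, ∀ w ∈ L v, ∃ i, ∀ l, grow (L v) w l ≤ C * F i l ∧
      F i l ≤ C * grow (L v) w l) : False := by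
  classical
  have hne : Nonempty V := hc.nonempty
  have hC1 : 1 ≤ C := by
    obtain ⟨v, _, hv⟩ := hR hne.some 0
    have := ncard_ball_pos hc hD hne.some 0
    rcases Nat.eq_zero_or_pos C with h | h
    · rw [h, zero_mul] at hv; omega
    · exact h
  have hCr : (1 : ℝ) ≤ (C : ℝ) := by exact_mod_cast hC1
  have hC0 : (0 : ℝ) < (C : ℝ) := by linarith
  have hD0 : (0 : ℝ) < (D : ℝ) + 1 := by positivity
  have hD1 : (1 : ℝ) ≤ (D : ℝ) + 1 := by
    have : (0 : ℝ) ≤ D := by positivity
    linarith
  have hone : (1 : ℝ) < 1 + c := by linarith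
  obtain ⟨j0, hj0⟩ := pow_unbounded_of_one_lt (2 * (C : ℝ)) hone
  -- the constant of `ends_ge`
  set C2 : ℕ := 2 * C * (D + 1) ^ j0 with hC2def
  have hC2 : (0 : ℝ) < (C2 : ℝ) := by
    rw [hC2def]
    push_cast
    positivity
  have hends : ∀ v ∈ R, ∀ n : ℕ, (ball G v n).ncard ≤ C2 *
      {z : V | ∃ w ∈ L v, w.length = n ∧ w.getLastD v = z}.ncard := fun v hv n =>
    ends_ge hc hD hc0 hexp (hL v hv) C j0 hj0.le (hcov v hv) n
  let used : Fin Q → Prop := fun i => ∃ v ∈ R, ∃ w ∈ L v, ∀ l, grow (L v) w l ≤ C * F i l ∧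
      F i l ≤ C * grow (L v) w l
  let F' : Fin Q → ℕ → ℝ := fun i l => if used i then (F i l : ℝ) else 0
  have hF'0 : ∀ i l, 0 ≤ F' i l := by
    intro i l
    simp only [F']
    split_ifs
    · positivity
    · exact le_rfl
  have hMpos : ∀ l, (0 : ℝ) < (Mx G l : ℝ) := fun l => by exact_mod_cast Mx_pos hc hD l
  have hMmono : ∀ l k, (Mx G l : ℝ) ≤ Mx G (l + k) := by
    intro l k
    have h1 := Mx_growth hc hD hc0 hexp l k
    have h2 : (1 : ℝ) ≤ (1 + c) ^ k := one_le_pow₀ (by linarith)
    have h3 := hMpos l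
    nlinarith
  have hF' : ∀ i l k, F' i (l + k) ≤ (C : ℝ) ^ 2 * ((D : ℝ) + 1) ^ k * F' i l := by
    intro i l k
    simp only [F']
    split_ifs with h
    · obtain ⟨v, hv, w, hw, hF⟩ := h
      have h1 := (hF (l + k)).2
      have h2 := grow_add_le hD (hL v hv) w l k
      have h3 := (hF l).1
      have h4 : F i (l + k) ≤ C * ((D + 1) ^ k * (C * F i l)) := by
        calc F i (l + k) ≤ C * grow (L v) w (l + k) := h1
          _ ≤ C * (D ^ k * grow (L v) w l) := by gcongr
          _ ≤ C * ((D + 1) ^ k * (C * F i l)) := by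
              gcongr
              omega
      have h5 : (F i (l + k) : ℝ) ≤ C * (((D : ℝ) + 1) ^ k * (C * F i l)) := by exact_mod_cast h4
      calc (F i (l + k) : ℝ) ≤ _ := h5
        _ = _ := by ring
    · simp
  obtain ⟨Z, δ0, hδ0, hwin⟩ := windows F' (fun l => (Mx G l : ℝ)) ((C : ℝ) ^ 2) ((D : ℝ) + 1)
    (one_le_pow₀ hCr) hD1 hF'0 hMpos hMmono hF'
  -- parameters
  set C3 : ℝ := (C : ℝ) * C2 with hC3def
  have hC3 : 0 < C3 := by positivity
  set δ : ℝ := δ0 / (16 * C3 * C) with hδdef
  have hδ : 0 < δ := by positivity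
  obtain ⟨k, hk⟩ := pow_unbounded_of_one_lt (2 / δ) hone
  obtain ⟨ρ, hρ⟩ := pow_unbounded_of_one_lt (4 / δ) hone
  set M : ℕ := 2 * (D + 1) ^ ρ + 1 with hMdef
  set m : ℕ := M * k with hm
  set η : ℝ := 1 / (16 * C3 * C * ((D : ℝ) + 1) ^ m) with hη
  have hηpos : 0 < η := by positivity
  obtain ⟨l, hl⟩ := hwin η hηpos m
  set n : ℕ := l + m with hn
  obtain ⟨x, hx⟩ := exists_Mx hc hD n
  obtain ⟨v, hv, hxv⟩ := hR x n
  rw [hx] at hxv
  have hLv := hL v hv
  have hfinI := level_finite hD hLv n
  let J : Finset (List V) := hfinI.toFinset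
  have hmemJ : ∀ w, w ∈ J ↔ w ∈ L v ∧ w.length = n := by
    intro w
    simp only [J, Set.Finite.mem_toFinset, Set.mem_ofPred_eq]
  have hJcard : J.card = {w : List V | w ∈ L v ∧ w.length = n}.ncard :=
    (Set.ncard_eq_toFinset_card _ hfinI).symm
  -- representatives of the endpoints
  let E : Finset V := J.image (fun w => w.getLastD v)
  have hsec : ∀ z : V, ∃ w : List V, z ∈ E → w ∈ J ∧ w.getLastD v = z := by
    intro z
    by_cases hz : z ∈ E
    · obtain ⟨w, hw, hwz⟩ := mem_image.1 hz
      exact ⟨w, fun _ => ⟨hw, hwz⟩⟩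
    · exact ⟨[], fun h => absurd h hz⟩
  choose f hf using hsec
  let I : Finset (List V) := E.image f
  have hIJ : I ⊆ J := by
    intro w hw
    obtain ⟨z, hz, rfl⟩ := mem_image.1 hw
    exact (hf z hz).1
  have hIinj : ∀ a ∈ I, ∀ b ∈ I, a.getLastD v = b.getLastD v → a = b := by
    intro a ha b hb hab
    obtain ⟨z, hz, rfl⟩ := mem_image.1 ha
    obtain ⟨z', hz', rfl⟩ := mem_image.1 hb
    rw [(hf z hz).2, (hf z' hz').2] at hab
    rw [hab]
  have hIcard : I.card = E.card := by
    refine card_image_of_injOn ?_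
    intro z hz z' hz' h
    have h1 : f z = f z' := h
    rw [← (hf z hz).2, ← (hf z' hz').2, h1]
  have hEcard : E.card = {z : V | ∃ w ∈ L v, w.length = n ∧ w.getLastD v = z}.ncard := by
    rw [← Set.ncard_coe_finset]
    congr 1
    ext z
    simp only [E, coe_image, Set.mem_image, mem_coe, hmemJ, Set.mem_ofPred_eq]
    constructor
    · rintro ⟨w, ⟨h1, h2⟩, h3⟩
      exact ⟨w, h1, h2, h3⟩
    · rintro ⟨w, h1, h2, h3⟩
      exact ⟨w, ⟨h1, h2⟩, h3⟩
  have hBI : ((ball G v n).ncard : ℝ) ≤ C2 * (I.card : ℝ) := by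
    rw [hIcard, hEcard]
    exact_mod_cast hends v hv n
  have hIlow : (Mx G n : ℝ) ≤ C3 * I.card := by
    have h3 : (Mx G n : ℝ) ≤ C * ((ball G v n).ncard : ℝ) := by exact_mod_cast hxv
    calc (Mx G n : ℝ) ≤ C * ((ball G v n).ncard : ℝ) := h3
      _ ≤ C * (C2 * (I.card : ℝ)) := by gcongr
      _ = _ := by rw [hC3def]; ring
  have hJup : (J.card : ℝ) ≤ C3 * I.card := by
    have h3 : (J.card : ℝ) ≤ C * ((ball G v n).ncard : ℝ) := by
      rw [hJcard]
      exact_mod_cast hlen v hv n
    calc (J.card : ℝ) ≤ C * ((ball G v n).ncard : ℝ) := h3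
      _ ≤ C * (C2 * (I.card : ℝ)) := by gcongr
      _ = _ := by rw [hC3def]; ring
  have hIpos : (0 : ℝ) < I.card := by
    have h1 := hMpos n
    by_contra hcon
    have h2 : (I.card : ℝ) ≤ 0 := not_lt.1 hcon
    nlinarith
  have hInon : I.Nonempty := by
    rw [← Finset.card_pos]
    exact_mod_cast hIpos
  -- types
  have hneQ : Nonempty (Fin Q) := by
    obtain ⟨w, hw⟩ := hInon
    obtain ⟨i, _⟩ := htype v hv w ((hmemJ w).1 (hIJ hw)).1
    exact ⟨i⟩
  choose! cls hcls using htype v hv
  have hused : ∀ w ∈ L v, ∀ t, F' (cls w) t = (F (cls w) t : ℝ) := by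
    intro w hw t
    simp only [F']
    rw [if_pos]
    exact ⟨v, hv, w, hw, hcls w hw⟩
  have htake : ∀ w ∈ J, ∀ j, w.take j ∈ L v := by
    intro w hw j
    apply hLv.pre _ (w.drop j)
    rw [List.take_append_drop]
    exact ((hmemJ w).1 hw).1
  have hlenJ : ∀ w ∈ J, ∀ j ≤ n, (w.take j).length = j := by
    intro w hw j hj
    rw [List.length_take, ((hmemJ w).1 hw).2]
    omega
  -- bad words, first kind
  have hbad1 : ∀ j ≤ m, 16 * ((I.filter (fun w => cls (w.take j) ∈ Z)).card : ℝ) ≤ I.card := by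
    intro j hj
    have hfinL := level_finite hD hLv j
    have hcardL := card_level_le hD hLv j
    have hsub : I.filter (fun w => cls (w.take j) ∈ Z) ⊆
        (hfinL.toFinset.filter (fun u => cls u ∈ Z)).biUnion
          (fun u => J.filter (fun b => b.take j = u)) := by
      intro w hw
      obtain ⟨hw1, hw2⟩ := mem_filter.1 hw
      have hw3 := hIJ hw1
      refine mem_biUnion.2 ⟨w.take j, mem_filter.2 ⟨?_, hw2⟩, mem_filter.2 ⟨hw3, rfl⟩⟩
      rw [Set.Finite.mem_toFinset]
      exact ⟨htake w hw3 j, hlenJ w hw3 j (by omega)⟩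
    have h1 : ((I.filter (fun w => cls (w.take j) ∈ Z)).card : ℝ) ≤
        ∑ u ∈ hfinL.toFinset.filter (fun u => cls u ∈ Z),
          ((J.filter (fun b => b.take j = u)).card : ℝ) := by
      exact_mod_cast (card_le_card hsub).trans card_biUnion_le
    have h2 : ∀ u ∈ hfinL.toFinset.filter (fun u => cls u ∈ Z),
        ((J.filter (fun b => b.take j = u)).card : ℝ) ≤ C * (η * Mx G n) := by
      intro u hu
      obtain ⟨hu1, hu2⟩ := mem_filter.1 hu
      rw [Set.Finite.mem_toFinset] at hu1
      obtain ⟨hu3, hu4⟩ := hu1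
      rw [main_fiber J n j hmemJ (by omega) u hu4]
      have h3 := (hl (m - j) (by omega)).1 (cls u) hu2
      rw [hused u hu3, show l + (m - j) = n - j by omega] at h3
      have h4 : (grow (L v) u (n - j) : ℝ) ≤ C * (F (cls u) (n - j) : ℝ) := by
        exact_mod_cast (hcls u hu3 (n - j)).1
      have h5 : (Mx G (n - j) : ℝ) ≤ Mx G n := by
        have := hMmono (n - j) j
        rwa [Nat.sub_add_cancel (by omega)] at this
      calc (grow (L v) u (n - j) : ℝ) ≤ C * (F (cls u) (n - j) : ℝ) := h4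
        _ ≤ C * (η * Mx G (n - j)) := by gcongr
        _ ≤ _ := by gcongr
    have h3 : ((hfinL.toFinset.filter (fun u => cls u ∈ Z)).card : ℝ) ≤ ((D : ℝ) + 1) ^ m := by
      have h4 : (hfinL.toFinset.filter (fun u => cls u ∈ Z)).card ≤ (D + 1) ^ j := by
        refine (card_filter_le _ _).trans ?_
        rw [← Set.ncard_eq_toFinset_card _ hfinL]
        refine hcardL.trans ?_
        gcongr
        omega
      calc ((hfinL.toFinset.filter (fun u => cls u ∈ Z)).card : ℝ) ≤ ((D : ℝ) + 1) ^ j := by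
            exact_mod_cast h4
        _ ≤ _ := pow_le_pow_right₀ hD1 hj
    calc 16 * ((I.filter (fun w => cls (w.take j) ∈ Z)).card : ℝ)
        ≤ 16 * ∑ u ∈ hfinL.toFinset.filter (fun u => cls u ∈ Z), (C * (η * Mx G n) : ℝ) := by
          gcongr
          exact h1.trans (sum_le_sum h2)
      _ = 16 * (((hfinL.toFinset.filter (fun u => cls u ∈ Z)).card : ℝ) * (C * (η * Mx G n))) := by
          rw [sum_const, nsmul_eq_mul]
      _ ≤ 16 * (((D : ℝ) + 1) ^ m * (C * (η * Mx G n))) := by
          gcongr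
      _ = Mx G n / C3 := by
          rw [hη]
          field_simp
      _ ≤ _ := by
          rw [div_le_iff₀ hC3]
          linarith
  -- bad words, second kind
  have hbad2 : ∀ j, 16 * ((I.filter (fun w => 16 * C3 *
      ((I.filter (fun b => b.take j = w.take j)).card : ℝ) <
        ((J.filter (fun b => b.take j = w.take j)).card : ℝ))).card : ℝ) ≤ I.card := by
    intro j
    set B : Finset (List V) := I.filter (fun w => 16 * C3 *
      ((I.filter (fun b => b.take j = w.take j)).card : ℝ) <
        ((J.filter (fun b => b.take j = w.take j)).card : ℝ)) with hB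
    have h1 : (B.card : ℝ) = ∑ u ∈ B.image (fun w => w.take j),
        ((B.filter (fun b => b.take j = u)).card : ℝ) := by
      exact_mod_cast card_eq_sum_card_image (fun w : List V => w.take j) B
    have h2 : ∀ u ∈ B.image (fun w => w.take j), 16 * C3 *
        ((B.filter (fun b => b.take j = u)).card : ℝ) ≤
        ((J.filter (fun b => b.take j = u)).card : ℝ) := by
      intro u hu
      obtain ⟨w, hw, rfl⟩ := mem_image.1 hu
      have hw' := (mem_filter.1 hw).2
      refine le_trans ?_ hw'.le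
      have h3 : (B.filter (fun b => b.take j = w.take j)).card ≤
          (I.filter (fun b => b.take j = w.take j)).card := by
        refine card_le_card (filter_subset_filter _ ?_)
        exact filter_subset _ _
      gcongr
    have h3 : ∑ u ∈ B.image (fun w => w.take j), ((J.filter (fun b => b.take j = u)).card : ℝ) ≤
        (J.card : ℝ) := by
      have h4 : B.image (fun w => w.take j) ⊆ J.image (fun w => w.take j) := by
        refine image_subset_image ?_
        exact (filter_subset _ _).trans hIJ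
      have h5 : (J.card : ℝ) = ∑ u ∈ J.image (fun w => w.take j),
          ((J.filter (fun b => b.take j = u)).card : ℝ) := by
        exact_mod_cast card_eq_sum_card_image (fun w : List V => w.take j) J
      rw [h5]
      exact sum_le_sum_of_subset_of_nonneg h4 (fun _ _ _ => by positivity)
    have h6 : 16 * C3 * (B.card : ℝ) ≤ C3 * I.card := by
      calc 16 * C3 * (B.card : ℝ) = ∑ u ∈ B.image (fun w => w.take j), 16 * C3 *
            ((B.filter (fun b => b.take j = u)).card : ℝ) := by rw [h1, mul_sum]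
        _ ≤ ∑ u ∈ B.image (fun w => w.take j), ((J.filter (fun b => b.take j = u)).card : ℝ) :=
            sum_le_sum h2
        _ ≤ (J.card : ℝ) := h3
        _ ≤ _ := hJup
    have h7 : C3 * (16 * (B.card : ℝ)) ≤ C3 * I.card := by linarith
    exact le_of_mul_le_mul_left h7 hC3
  -- good words are thick
  have hthick : ∀ j ≤ m, ∀ w ∈ I, cls (w.take j) ∉ Z → ¬ (16 * C3 *
      ((I.filter (fun b => b.take j = w.take j)).card : ℝ) <
        ((J.filter (fun b => b.take j = w.take j)).card : ℝ)) →
      δ * (Mx G (n - j) : ℝ) ≤ ((I.filter (fun b => b.take j = w.take j)).card : ℝ) := by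
    intro j hj w hw hw1 hw2
    have hwJ := hIJ hw
    have hL1 := htake w hwJ j
    have e1 := (hl (m - j) (by omega)).2 _ hw1
    rw [hused _ hL1, show l + (m - j) = n - j by omega] at e1
    have g1 : (F (cls (w.take j)) (n - j) : ℝ) ≤
        C * (grow (L v) (w.take j) (n - j) : ℝ) := by
      exact_mod_cast (hcls _ hL1 (n - j)).2
    rw [main_fiber J n j hmemJ (by omega) _ (hlenJ w hwJ j (by omega))] at hw2
    have hw3 := not_lt.1 hw2
    rw [hδdef, div_mul_eq_mul_div, div_le_iff₀ (by positivity)]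
    calc δ0 * (Mx G (n - j) : ℝ) ≤ C * (grow (L v) (w.take j) (n - j) : ℝ) := e1.trans g1
      _ ≤ C * (16 * C3 * ((I.filter (fun b => b.take j = w.take j)).card : ℝ)) := by gcongr
      _ = _ := by ring
  -- the branches inject into balls
  have hinjball : ∀ j ≤ n, ∀ w ∈ I, (I.filter (fun b => b.take j = w.take j)).card ≤
      (ball G ((w.take j).getLastD v) (n - j)).ncard := by
    intro j hj w hw
    rw [← card_fball hc hD]
    refine card_le_card_of_injOn (fun b => b.getLastD v) ?_ ?_
    · intro b hb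
      obtain ⟨hb1, hb2⟩ := mem_filter.1 (mem_coe.1 hb)
      have hbJ := hIJ hb1
      rw [mem_coe, mem_fball]
      have h1 := take_dist hc v b (hLv.walk b ((hmemJ b).1 hbJ).1) j (n - j)
      have h2 := ((hmemJ b).1 hbJ).2
      rw [hb2, List.take_of_length_le (show b.length ≤ j + (n - j) by omega)] at h1
      exact h1
    · intro a ha b hb hab
      exact hIinj a (mem_filter.1 (mem_coe.1 ha)).1 b (mem_filter.1 (mem_coe.1 hb)).1 hab
  -- apply the chain lemma
  have key := chain hc hD hc0 hexp I hInon (fun w i => (w.take i).getLastD v)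
    (fun w i => w.take i) n k M ρ 1 δ hδ ?_ ?_ ?_ (by omega) ?_ ?_
  · omega
  · intro w hw i t
    exact take_dist hc v w (hLv.walk w ((hmemJ w).1 (hIJ hw)).1) i t
  · intro a _ b _ i j hij hab
    have h1 : a.take j = (a.take i).take j := by rw [List.take_take, min_eq_left hij]
    have h2 : b.take j = (b.take i).take j := by rw [List.take_take, min_eq_left hij]
    have hab' : a.take i = b.take i := hab
    show (a.take j).getLastD v = (b.take j).getLastD v
    rw [h1, h2, hab']
  · intro z
    rw [card_le_one]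
    intro a ha b hb
    obtain ⟨ha1, ha2⟩ := mem_filter.1 ha
    obtain ⟨hb1, hb2⟩ := mem_filter.1 hb
    rw [List.take_of_length_le (by rw [((hmemJ a).1 (hIJ ha1)).2])] at ha2
    rw [List.take_of_length_le (by rw [((hmemJ b).1 (hIJ hb1)).2])] at hb2
    exact hIinj a ha1 b hb1 (ha2.trans hb2.symm)
  · rw [div_lt_iff₀ hδ] at hρ
    push_cast
    linarith
  · intro i hi
    have hik : (i + 1) * k ≤ m := Nat.mul_le_mul_right _ hi
    have hik' : (i + 1) * k = i * k + k := by ring
    have hb1 := hbad1 (i * k) (by omega)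
    have hb2 := hbad1 ((i + 1) * k) hik
    have hb3 := hbad2 (i * k)
    have hb4 := hbad2 ((i + 1) * k)
    set B1 := I.filter (fun w => cls (w.take (i * k)) ∈ Z) with hB1
    set B2 := I.filter (fun w => cls (w.take ((i + 1) * k)) ∈ Z) with hB2
    set B3 := I.filter (fun w => 16 * C3 *
      ((I.filter (fun b => b.take (i * k) = w.take (i * k))).card : ℝ) <
        ((J.filter (fun b => b.take (i * k) = w.take (i * k))).card : ℝ)) with hB3
    set B4 := I.filter (fun w => 16 * C3 *
      ((I.filter (fun b => b.take ((i + 1) * k) = w.take ((i + 1) * k))).card : ℝ) <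
        ((J.filter (fun b => b.take ((i + 1) * k) = w.take ((i + 1) * k))).card : ℝ)) with hB4
    set GG := I.filter (fun a => 2 * (ball G ((a.take ((i + 1) * k)).getLastD v)
          (n - (i + 1) * k)).ncard ≤ (ball G ((a.take (i * k)).getLastD v) (n - i * k)).ncard ∧
        δ * ((ball G ((a.take ((i + 1) * k)).getLastD v) (n - (i + 1) * k)).ncard : ℝ) ≤
          ((I.filter (fun b => b.take ((i + 1) * k) = a.take ((i + 1) * k))).card : ℝ)) with hGG
    have hsub : I ⊆ ((B1 ∪ B2) ∪ (B3 ∪ B4)) ∪ GG := by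
      intro w hwI
      by_cases hw1 : w ∈ B1
      · exact mem_union_left _ (mem_union_left _ (mem_union_left _ hw1))
      by_cases hw2 : w ∈ B2
      · exact mem_union_left _ (mem_union_left _ (mem_union_right _ hw2))
      by_cases hw3 : w ∈ B3
      · exact mem_union_left _ (mem_union_right _ (mem_union_left _ hw3))
      by_cases hw4 : w ∈ B4
      · exact mem_union_left _ (mem_union_right _ (mem_union_right _ hw4))
      apply mem_union_right
      have e1 := hthick (i * k) (by omega) w hwI (fun h => hw1 (mem_filter.2 ⟨hwI, h⟩))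
        (fun h => hw3 (mem_filter.2 ⟨hwI, h⟩))
      have e2 := hthick ((i + 1) * k) hik w hwI (fun h => hw2 (mem_filter.2 ⟨hwI, h⟩))
        (fun h => hw4 (mem_filter.2 ⟨hwI, h⟩))
      have g4 : ((ball G ((w.take ((i + 1) * k)).getLastD v) (n - (i + 1) * k)).ncard : ℝ) ≤
          Mx G (n - (i + 1) * k) := by
        exact_mod_cast le_Mx hc hD _ _
      have g5 := Mx_growth hc hD hc0 hexp (n - (i + 1) * k) k
      rw [show n - (i + 1) * k + k = n - i * k by omega] at g5
      have g6 : ((I.filter (fun b => b.take (i * k) = w.take (i * k))).card : ℝ) ≤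
          ((ball G ((w.take (i * k)).getLastD v) (n - i * k)).ncard : ℝ) := by
        exact_mod_cast hinjball (i * k) (by omega) w hwI
      refine mem_filter.2 ⟨hwI, ?_, ?_⟩
      · have hkk : 2 < (1 + c) ^ k * δ := by
          rwa [div_lt_iff₀ hδ] at hk
        have hMx := hMpos (n - (i + 1) * k)
        have h9 : (2 * ((ball G ((w.take ((i + 1) * k)).getLastD v)
            (n - (i + 1) * k)).ncard : ℝ)) ≤
            ((ball G ((w.take (i * k)).getLastD v) (n - i * k)).ncard : ℝ) := by
          calc (2 * ((ball G ((w.take ((i + 1) * k)).getLastD v)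
            (n - (i + 1) * k)).ncard : ℝ)) ≤ 2 * (Mx G (n - (i + 1) * k) : ℝ) := by gcongr
            _ ≤ (1 + c) ^ k * δ * (Mx G (n - (i + 1) * k) : ℝ) := by gcongr
            _ = δ * ((1 + c) ^ k * (Mx G (n - (i + 1) * k) : ℝ)) := by ring
            _ ≤ δ * (Mx G (n - i * k) : ℝ) := by gcongr
            _ ≤ _ := e1.trans g6
        exact_mod_cast h9
      · refine le_trans ?_ e2
        gcongr
    have h1 := card_le_card hsub
    have h2 := card_union_le ((B1 ∪ B2) ∪ (B3 ∪ B4)) GG
    have h3 := card_union_le (B1 ∪ B2) (B3 ∪ B4)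
    have h4 := card_union_le B1 B2
    have h5 := card_union_le B3 B4
    have h6 : (I.card : ℝ) ≤ (B1.card : ℝ) + B2.card + (B3.card + B4.card) + GG.card := by
      have : I.card ≤ B1.card + B2.card + (B3.card + B4.card) + GG.card := by omega
      exact_mod_cast this
    have h7 : 3 * (I.card : ℝ) ≤ 4 * (GG.card : ℝ) := by linarith
    rw [hGG] at h7
    convert h7

end Pool.Agent.FGT
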