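import Pool.Agent.FGT.WDefs

set_option autoImplicit false

namespace Pool.Agent.FGT

open Pool.Agent.MP_515f4e_co

variable {V : Type} {G : SimpleGraph V} {v : V} {pr : V → V → ℝ}

theorem wgt_append (pr : V → V → ℝ) (x : V) (u w : List V) :
    wgt pr x (u ++ w) = wgt pr x u * wgt pr (u.getLastD x) w := by
  induction u generalizing x with
  | nil => simp [wgt]
  | cons y u ih =>
    rw [List.cons_append]
    simp only [wgt, List.getLastD_cons]
    rw [ih y, mul_assoc]

theorem wgt_nonneg (h : Desc G v pr) (x : V) (w : List V) : 0 ≤ wgt pr x w := by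
  induction w generalizing x with
  | nil => simp [wgt]
  | cons y w ih =>
    simp only [wgt]
    exact mul_nonneg (h.nonneg y x) (ih y)

/-- `pr y x ≤ 1`: for `y ≠ v` a nonnegative term of a finite sum equal to 1 (the support of `pr y ·` is
finite since it lies in the neighbourhood of `y`); for `y = v` it is `0` by `supp`
(`dist v v = 0 ≠ dist v x + 1`). -/
theorem pr_le_one {D : ℕ} (hD : ∀ v, (G.neighborSet v).encard ≤ D) (h : Desc G v pr) (y x : V) :
    pr y x ≤ 1 := by
  by_cases hy : y = v
  · subst hy
    have h0 : pr y x = 0 := by
      by_contra hne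
      have h1 := (h.supp y x hne).2
      rw [SimpleGraph.dist_self] at h1
      omega
    rw [h0]
    exact zero_le_one
  · have h1 := h.sum y hy
    have hfin : (Function.support (fun x => pr y x)).Finite := by
      by_contra hinf
      rw [finsum_of_infinite_support hinf] at h1
      exact zero_ne_one h1
    rw [← h1]
    exact single_le_finsum x hfin (fun j => h.nonneg y j)

theorem wgt_le_one {D : ℕ} (hD : ∀ v, (G.neighborSet v).encard ≤ D) (h : Desc G v pr) (x : V)
    (w : List V) : wgt pr x w ≤ 1 := by
  induction w generalizing x with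
  | nil => simp [wgt]
  | cons y w ih =>
    simp only [wgt]
    exact mul_le_one₀ (pr_le_one hD h y x) (wgt_nonneg h y w) (ih y)

theorem wgt_dist (h : Desc G v pr) (x : V) (w : List V) (hw : wgt pr x w ≠ 0) :
    G.dist v (w.getLastD x) = G.dist v x + w.length := by
  induction w generalizing x with
  | nil => simp
  | cons y w ih =>
    simp only [wgt] at hw
    have h1 := (h.supp y x (left_ne_zero_of_mul hw)).2
    have h2 := ih y (right_ne_zero_of_mul hw)
    rw [List.getLastD_cons, h2, h1, List.length_cons]
    omega

end Pool.Agent.FGT
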