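import Pool.Agent.FGT.WDefs

set_option autoImplicit false

namespace Pool.Agent.FGT

open Pool.Agent.MP_515f4e_co

variable {V : Type} {G : SimpleGraph V} {v : V} {pr : V → V → ℝ}

theorem WW_nonneg (h : Desc G v pr) (x : V) (l : ℕ) : 0 ≤ WW pr x l := by
  induction l generalizing x with
  | zero => rw [WW]; exact zero_le_one
  | succ l ih =>
    rw [WW]
    exact finsum_nonneg fun y => mul_nonneg (h.nonneg y x) (ih y)

/-- Induction on `l`: the walks of length `l + 1` from `x` are the `y :: w` with `G.Adj x y` and `w` a walk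
of length `l` from `y` (`List.isChain_cons_cons`), and `pr y x = 0` if `y` is not adjacent to `x`. -/
theorem sum_wgt {D : ℕ} (hD : ∀ v, (G.neighborSet v).encard ≤ D) (h : Desc G v pr) (x : V)
    (l : ℕ) : ∑ w ∈ walksF hD x l, wgt pr x w = WW pr x l := by
  classical
  induction l generalizing x with
  | zero =>
    have h0 : walksF hD x 0 = {[]} := by
      ext w
      rw [mem_walksF, Finset.mem_singleton]
      constructor
      · rintro ⟨_, h2⟩
        exact List.length_eq_zero_iff.1 h2
      · rintro rfl
        exact ⟨List.isChain_singleton _, rfl⟩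
    rw [h0, Finset.sum_singleton]
    rfl
  | succ l ih =>
    have hfin : (G.neighborSet x).Finite := Set.finite_of_encard_le_coe (hD x)
    have h1 : ∑ w ∈ walksF hD x (l + 1), wgt pr x w
        = ∑ y ∈ hfin.toFinset, ∑ w ∈ walksF hD y l, pr y x * wgt pr y w := by
      rw [Finset.sum_sigma']
      symm
      refine Finset.sum_bij (fun p _ => p.1 :: p.2) ?_ ?_ ?_ ?_
      · rintro ⟨y, w⟩ hp
        rw [Finset.mem_sigma, Set.Finite.mem_toFinset, mem_walksF] at hp
        rw [mem_walksF, List.isChain_cons_cons]
        exact ⟨⟨hp.1, hp.2.1⟩, by simp [hp.2.2]⟩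
      · rintro ⟨y, w⟩ _ ⟨y', w'⟩ _ he
        have he' := List.cons.inj he
        obtain ⟨e1, e2⟩ := he'
        simp only at e1 e2
        subst e1
        subst e2
        rfl
      · intro u hu
        rw [mem_walksF] at hu
        obtain ⟨hu1, hu2⟩ := hu
        cases u with
        | nil => simp at hu2
        | cons y w =>
          rw [List.isChain_cons_cons] at hu1
          refine ⟨⟨y, w⟩, ?_, rfl⟩
          rw [Finset.mem_sigma, Set.Finite.mem_toFinset, mem_walksF]
          exact ⟨hu1.1, hu1.2, by simpa using hu2⟩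
      · rintro ⟨y, w⟩ _
        rfl
    rw [h1]
    have h2 : ∀ y ∈ hfin.toFinset, ∑ w ∈ walksF hD y l, pr y x * wgt pr y w
        = pr y x * WW pr y l := by
      intro y _
      rw [← Finset.mul_sum, ih]
    rw [Finset.sum_congr rfl h2, WW]
    symm
    apply finsum_eq_sum_of_support_subset
    intro y hy
    rw [Function.mem_support] at hy
    have h3 : pr y x ≠ 0 := left_ne_zero_of_mul hy
    have h4 := (h.supp y x h3).1
    rw [Finset.mem_coe, Set.Finite.mem_toFinset]
    exact h4

end Pool.Agent.FGT
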