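import Pool.Agent.FGT.WDefs

set_option autoImplicit false

namespace Pool.Agent.FGT

open Pool.Agent.MP_515f4e_co

variable {V : Type} {G : SimpleGraph V} {v : V} {pr : V → V → ℝ}

private theorem wc_chain (G : SimpleGraph V) (x : V) (w : List V) (z : V) :
    List.IsChain G.Adj (x :: (w ++ [z])) ↔ List.IsChain G.Adj (x :: w) ∧ G.Adj (w.getLastD x) z := by
  induction w generalizing x with
  | nil => simp [List.isChain_cons_cons, List.getLastD_nil]
  | cons y w ih =>
    rw [List.cons_append, List.isChain_cons_cons, ih, List.isChain_cons_cons, List.getLastD_cons, and_assoc]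

private theorem wc_wgt (pr : V → V → ℝ) (x : V) (w : List V) (z : V) :
    wgt pr x (w ++ [z]) = wgt pr x w * pr z (w.getLastD x) := by
  induction w generalizing x with
  | nil => simp [wgt, List.getLastD_nil]
  | cons y w ih =>
    rw [List.cons_append, List.getLastD_cons]
    simp only [wgt]
    rw [ih, mul_assoc]

open Classical in
/-- The recursion at the END of the walk: a walk of length `l + 1` from `x` to `z` is `w ++ [z]` with `w` a
walk of length `l` from `x` to a neighbour `y` of `z`; `wgt pr x (w ++ [z]) = wgt pr x w * pr z y`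
(prove `wgt pr x (w ++ [z]) = wgt pr x w * pr z (w.getLastD x)` by induction on `w`; it is a case of
`wgt_append` in WA.lean, which you may copy).  The sum over `y` is a finsum over all `y`; `pr z y = 0` if
`y` is not adjacent to `z`. -/
theorem end_rec {D : ℕ} (hD : ∀ v, (G.neighborSet v).encard ≤ D) (h : Desc G v pr) (x z : V)
    (l : ℕ) : ∑ w ∈ (walksF hD x (l + 1)).filter (fun w => w.getLastD x = z), wgt pr x w =
      ∑ᶠ y, pr z y * ∑ w ∈ (walksF hD x l).filter (fun w => w.getLastD x = y), wgt pr x w := by
  have hL : ∑ w ∈ (walksF hD x (l + 1)).filter (fun w => w.getLastD x = z), wgt pr x w =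
      ∑ w ∈ (walksF hD x l).filter (fun w => G.Adj (w.getLastD x) z), pr z (w.getLastD x) * wgt pr x w := by
    symm
    refine Finset.sum_bij (fun w _ => w ++ [z]) ?_ ?_ ?_ ?_
    · intro w hw
      obtain ⟨hw1, hw2⟩ := Finset.mem_filter.mp hw
      rw [mem_walksF] at hw1
      refine Finset.mem_filter.mpr ⟨?_, List.getLastD_concat⟩
      rw [mem_walksF]
      exact ⟨(wc_chain G x w z).mpr ⟨hw1.1, hw2⟩, by simp [hw1.2]⟩
    · intro w _ w' _ he
      exact List.append_cancel_right he
    · intro w hw
      obtain ⟨hw1, hw2⟩ := Finset.mem_filter.mp hw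
      rw [mem_walksF] at hw1
      rcases List.eq_nil_or_concat w with rfl | ⟨u, z', rfl⟩
      · simp at hw1
      · rw [List.concat_eq_append] at hw1 hw2 ⊢
        rw [List.getLastD_concat] at hw2
        subst hw2
        have hc := (wc_chain G x u z').mp hw1.1
        refine ⟨u, Finset.mem_filter.mpr ⟨?_, hc.2⟩, rfl⟩
        rw [mem_walksF]
        refine ⟨hc.1, ?_⟩
        have := hw1.2
        rw [List.length_append, List.length_singleton] at this
        omega
    · intro w _
      rw [wc_wgt, mul_comm]
  have hL2 : ∑ w ∈ (walksF hD x l).filter (fun w => G.Adj (w.getLastD x) z), pr z (w.getLastD x) * wgt pr x w =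
      ∑ w ∈ walksF hD x l, pr z (w.getLastD x) * wgt pr x w := by
    apply Finset.sum_filter_of_ne
    intro w _ hne
    have : pr z (w.getLastD x) ≠ 0 := fun h0 => hne (by rw [h0, zero_mul])
    exact (h.supp z (w.getLastD x) this).1
  rw [hL, hL2]
  have hR : ∑ᶠ y, pr z y * ∑ w ∈ (walksF hD x l).filter (fun w => w.getLastD x = y), wgt pr x w =
      ∑ y ∈ (walksF hD x l).image (fun w => w.getLastD x),
        pr z y * ∑ w ∈ (walksF hD x l).filter (fun w => w.getLastD x = y), wgt pr x w := by
    apply finsum_eq_sum_of_support_subset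
    intro y hy
    rw [Function.mem_support] at hy
    by_contra hcon
    apply hy
    have he : (walksF hD x l).filter (fun w => w.getLastD x = y) = ∅ := by
      rw [Finset.filter_eq_empty_iff]
      intro w hw hwy
      apply hcon
      exact Finset.mem_coe.mpr (Finset.mem_image.mpr ⟨w, hw, hwy⟩)
    rw [he, Finset.sum_empty, mul_zero]
  rw [hR]
  rw [← Finset.sum_fiberwise_of_maps_to (s := walksF hD x l)
    (t := (walksF hD x l).image (fun w => w.getLastD x)) (g := fun w => w.getLastD x)
    (fun w hw => Finset.mem_image.mpr ⟨w, hw, rfl⟩) (fun w => pr z (w.getLastD x) * wgt pr x w)]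
  refine Finset.sum_congr rfl (fun y _ => ?_)
  rw [Finset.mul_sum]
  refine Finset.sum_congr rfl (fun w hw => ?_)
  rw [(Finset.mem_filter.mp hw).2]

end Pool.Agent.FGT
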