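import Pool.Agent.FGT.Defs

set_option autoImplicit false

namespace Pool.Agent.FGT

open Finset Pool.Agent.MP_515f4e_co

open Classical in
/-- WEIGHTED THICK CHAINS.  The proof of `chain` in Pool/Agent/FGT/Chain.lean (by helper51, done) with
cardinalities of subsets of `I` replaced by sums of weights, and with `C`, `δ` multiplied by the factor
`th q` of the label `q`. -/
theorem wchain {V : Type} {G : SimpleGraph V} (hc : G.Connected) {D : ℕ}
    (hD : ∀ v, (G.neighborSet v).encard ≤ D) {c : ℝ} (hc0 : 0 < c) (hexp : BallsExpand G c)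
    {ι κ : Type} (I : Finset ι) (wt : ι → ℝ) (hwt : ∀ a ∈ I, 0 ≤ wt a) (hI : 0 < ∑ a ∈ I, wt a)
    (γ : ι → ℕ → V) (p : ι → ℕ → κ) (th : κ → ℝ) (hth : ∀ q, 0 ≤ th q)
    (n k M R : ℕ) (C δ : ℝ) (hC : 0 ≤ C) (hδ : 0 < δ)
    (hγ : ∀ a ∈ I, ∀ i l, G.dist (γ a i) (γ a (i + l)) ≤ l)
    (hp : ∀ a ∈ I, ∀ b ∈ I, ∀ i j, j ≤ i → p a i = p b i → γ a j = γ b j)
    (hmult : ∀ i < M, ∀ a ∈ I, ∀ z, ∑ b ∈ I.filter (fun b =>
      p b ((i + 1) * k) = p a ((i + 1) * k) ∧ γ b n = z), wt b ≤ C * th (p a ((i + 1) * k)))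
    (hM : M * k ≤ n) (hR : 4 * C ≤ δ * (1 + c) ^ R)
    (hgood : ∀ i < M, 3 * ∑ a ∈ I, wt a ≤ 4 * ∑ a ∈ I.filter (fun a =>
        2 * (ball G (γ a ((i + 1) * k)) (n - (i + 1) * k)).ncard ≤
          (ball G (γ a (i * k)) (n - i * k)).ncard ∧
        δ * th (p a ((i + 1) * k)) * ((ball G (γ a ((i + 1) * k)) (n - (i + 1) * k)).ncard : ℝ) ≤
          ∑ b ∈ I.filter (fun b => p b ((i + 1) * k) = p a ((i + 1) * k)), wt b), wt a) :
    M ≤ 2 * (D + 1) ^ R := by
  set A : ℕ → ι → Finset V := fun i a => fball hc hD (γ a (i * k)) (n - i * k) with hAdef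
  have hAcard : ∀ i a, (A i a).card = (ball G (γ a (i * k)) (n - i * k)).ncard := fun i a =>
    card_fball hc hD _ _
  have hik : ∀ i, i < M → (i + 1) * k ≤ n := fun i hi => (Nat.mul_le_mul_right k hi).trans hM
  have hsub : ∀ i, i < M → ∀ a ∈ I, A (i + 1) a ⊆ A i a := by
    intro i hi a ha z hz
    have h1 := hik i hi
    have h2 : G.dist (γ a (i * k)) (γ a ((i + 1) * k)) ≤ k := by
      have := hγ a ha (i * k) k
      rwa [← Nat.succ_mul] at this
    have h3 : (i + 1) * k = i * k + k := Nat.succ_mul i k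
    have h4 : G.dist (γ a (i * k)) (γ a ((i + 1) * k)) + (n - (i + 1) * k) ≤ n - i * k := by omega
    have h5 := ball_subset hc h4
    rw [mem_fball] at hz ⊢
    exact h5 hz
  have hy : ∀ i, i < M → ∀ a ∈ I, γ a n ∈ A (i + 1) a := by
    intro i hi a ha
    have h1 := hik i hi
    have h2 := hγ a ha ((i + 1) * k) (n - (i + 1) * k)
    rw [Nat.add_sub_cancel' h1] at h2
    exact (mem_fball hc hD).2 h2
  -- the exits
  set E : ℕ → Finset ι := fun i => I.filter (fun a => γ a n ∈ A (i + 1) a ∧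
    γ a n ∉ deep G (A (i + 1) a) (A i a) R) with hE
  have key : ∀ i, i < M → ∑ a ∈ I, wt a ≤ 2 * ∑ a ∈ E i, wt a := by
    intro i hi
    have hgi := hgood i hi
    set Gd : Finset ι := I.filter (fun a =>
        2 * (ball G (γ a ((i + 1) * k)) (n - (i + 1) * k)).ncard ≤
          (ball G (γ a (i * k)) (n - i * k)).ncard ∧
        δ * th (p a ((i + 1) * k)) * ((ball G (γ a ((i + 1) * k)) (n - (i + 1) * k)).ncard : ℝ) ≤
          ∑ b ∈ I.filter (fun b => p b ((i + 1) * k) = p a ((i + 1) * k)), wt b) with hGd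
    set H : Finset ι := Gd.filter (fun a => γ a n ∈ deep G (A (i + 1) a) (A i a) R) with hH
    have hHI : ∀ a ∈ H, a ∈ I := fun a ha => (mem_filter.1 (mem_filter.1 ha).1).1
    have hEI : ∀ a ∈ E i, a ∈ I := fun a ha => (mem_filter.1 ha).1
    have hGE : Gd ⊆ E i ∪ H := by
      intro a ha
      have haI : a ∈ I := (mem_filter.1 ha).1
      by_cases h1 : γ a n ∈ deep G (A (i + 1) a) (A i a) R
      · exact mem_union_right _ (mem_filter.2 ⟨ha, h1⟩)
      · exact mem_union_left _ (mem_filter.2 ⟨haI, hy i hi a haI, h1⟩)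
    have hH4 : 4 * ∑ a ∈ H, wt a ≤ ∑ a ∈ I, wt a := by
      set f : ι → κ := fun a => p a ((i + 1) * k) with hf
      rw [← sum_fiberwise_of_maps_to (s := H) (t := I.image f) (g := f)
        (fun a ha => mem_image_of_mem f (hHI a ha)) wt,
        ← sum_fiberwise_of_maps_to (s := I) (t := I.image f) (g := f)
        (fun a ha => mem_image_of_mem f ha) wt, mul_sum]
      refine sum_le_sum fun q _ => ?_
      rcases (H.filter (fun a => f a = q)).eq_empty_or_nonempty with h0 | ⟨a₀, ha₀⟩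
      · rw [h0, sum_empty, mul_zero]
        exact sum_nonneg fun a ha => hwt a (mem_filter.1 ha).1
      · obtain ⟨ha₀H, ha₀q⟩ := mem_filter.1 ha₀
        have ha₀G := (mem_filter.1 ha₀H).1
        have ha₀I := hHI a₀ ha₀H
        obtain ⟨-, hg1, hg2⟩ := mem_filter.1 ha₀G
        have hsame : ∀ a ∈ I, f a = q → A (i + 1) a = A (i + 1) a₀ ∧ A i a = A i a₀ := by
          intro a ha hq
          have h1 : p a ((i + 1) * k) = p a₀ ((i + 1) * k) := by
            have h2 : f a = f a₀ := hq.trans ha₀q.symm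
            exact h2
          have h2 := hp a ha a₀ ha₀I ((i + 1) * k) ((i + 1) * k) le_rfl h1
          have h3 := hp a ha a₀ ha₀I ((i + 1) * k) (i * k)
            (Nat.mul_le_mul_right k (Nat.le_succ i)) h1
          refine ⟨?_, ?_⟩
          · simp only [hAdef, h2]
          · simp only [hAdef, h3]
        set T := deep G (A (i + 1) a₀) (A i a₀) R with hT
        have hHT : ∑ a ∈ H.filter (fun a => f a = q), wt a ≤
            (T.card : ℝ) * (C * th (p a₀ ((i + 1) * k))) := by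
          have h1 : H.filter (fun a => f a = q) ⊆ T.biUnion (fun z => I.filter (fun b =>
              p b ((i + 1) * k) = p a₀ ((i + 1) * k) ∧ γ b n = z)) := by
            intro a ha
            obtain ⟨haH, haq⟩ := mem_filter.1 ha
            have haI := hHI a haH
            have h2 := (mem_filter.1 haH).2
            obtain ⟨e1, e2⟩ := hsame a haI haq
            rw [e1, e2] at h2
            exact mem_biUnion.2 ⟨γ a n, h2, mem_filter.2 ⟨haI, haq.trans ha₀q.symm, rfl⟩⟩
          have hdisj : (T : Set V).PairwiseDisjoint (fun z => I.filter (fun b =>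
              p b ((i + 1) * k) = p a₀ ((i + 1) * k) ∧ γ b n = z)) := by
            intro x _ y _ hxy
            refine disjoint_left.2 fun b hb hb' => hxy ?_
            exact (mem_filter.1 hb).2.2.symm.trans (mem_filter.1 hb').2.2
          calc ∑ a ∈ H.filter (fun a => f a = q), wt a
              ≤ ∑ a ∈ T.biUnion (fun z => I.filter (fun b =>
                p b ((i + 1) * k) = p a₀ ((i + 1) * k) ∧ γ b n = z)), wt a := by
                refine sum_le_sum_of_subset_of_nonneg h1 fun a ha _ => ?_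
                obtain ⟨z, -, hz⟩ := mem_biUnion.1 ha
                exact hwt a (mem_filter.1 hz).1
            _ = ∑ z ∈ T, ∑ a ∈ I.filter (fun b =>
                p b ((i + 1) * k) = p a₀ ((i + 1) * k) ∧ γ b n = z), wt a := sum_biUnion hdisj
            _ ≤ ∑ _z ∈ T, C * th (p a₀ ((i + 1) * k)) :=
                sum_le_sum fun z _ => hmult i hi a₀ ha₀I z
            _ = _ := by rw [sum_const, nsmul_eq_mul]
        have hdeep : (1 + c) ^ R * (T.card : ℝ) ≤ ((A (i + 1) a₀).card : ℝ) :=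
          card_deep_le hc hD hc0 hexp (γ a₀ (i * k)) (n - i * k) (A (i + 1) a₀)
            (hsub i hi a₀ ha₀I) (by rw [hAcard]; exact hg1) R
        have hlabel : ∑ b ∈ I.filter (fun b => p b ((i + 1) * k) = p a₀ ((i + 1) * k)), wt b =
            ∑ a ∈ I.filter (fun a => f a = q), wt a := by
          refine sum_congr (filter_congr fun b _ => ?_) fun _ _ => rfl
          rw [← ha₀q]
        rw [hlabel, ← hAcard] at hg2
        have hT0 : (0 : ℝ) ≤ T.card := Nat.cast_nonneg _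
        have hth0 := hth (p a₀ ((i + 1) * k))
        have hδth : 0 ≤ δ * th (p a₀ ((i + 1) * k)) := mul_nonneg hδ.le hth0
        calc 4 * ∑ a ∈ H.filter (fun a => f a = q), wt a
            ≤ 4 * ((T.card : ℝ) * (C * th (p a₀ ((i + 1) * k)))) := by linarith
          _ = (4 * C) * ((T.card : ℝ) * th (p a₀ ((i + 1) * k))) := by ring
          _ ≤ (δ * (1 + c) ^ R) * ((T.card : ℝ) * th (p a₀ ((i + 1) * k))) :=
              mul_le_mul_of_nonneg_right hR (mul_nonneg hT0 hth0)
          _ = (δ * th (p a₀ ((i + 1) * k))) * ((1 + c) ^ R * T.card) := by ring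
          _ ≤ (δ * th (p a₀ ((i + 1) * k))) * (A (i + 1) a₀).card :=
              mul_le_mul_of_nonneg_left hdeep hδth
          _ ≤ _ := hg2
    have h1 : ∑ a ∈ Gd, wt a ≤ ∑ a ∈ E i, wt a + ∑ a ∈ H, wt a := by
      have h2 : ∑ a ∈ Gd, wt a ≤ ∑ a ∈ E i ∪ H, wt a :=
        sum_le_sum_of_subset_of_nonneg hGE fun a ha _ =>
          hwt a ((mem_union.1 ha).elim (hEI a) (hHI a))
      have h3 : ∑ a ∈ E i ∪ H, wt a + ∑ a ∈ E i ∩ H, wt a = ∑ a ∈ E i, wt a + ∑ a ∈ H, wt a :=
        sum_union_inter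
      have h4 : 0 ≤ ∑ a ∈ E i ∩ H, wt a :=
        sum_nonneg fun a ha => hwt a (hEI a (mem_inter.1 ha).1)
      linarith
    linarith
  have hdc : ∑ i ∈ range M, ∑ a ∈ E i, wt a =
      ∑ a ∈ I, (((range M).filter (fun i => γ a n ∈ A (i + 1) a ∧
        γ a n ∉ deep G (A (i + 1) a) (A i a) R)).card : ℝ) * wt a := by
    simp only [hE, sum_filter]
    rw [sum_comm]
    refine sum_congr rfl fun a _ => ?_
    rw [← sum_filter, sum_const, nsmul_eq_mul]
  have hex : ∀ a ∈ I, (((range M).filter (fun i => γ a n ∈ A (i + 1) a ∧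
      γ a n ∉ deep G (A (i + 1) a) (A i a) R)).card : ℝ) * wt a ≤ ((D : ℝ) + 1) ^ R * wt a := by
    intro a ha
    have h1 := exits_le hc hD (γ a) (γ a n) n k R M hM (hγ a ha)
    refine mul_le_mul_of_nonneg_right ?_ (hwt a ha)
    exact_mod_cast h1
  have h1 : (M : ℝ) * ∑ a ∈ I, wt a ≤ 2 * ∑ i ∈ range M, ∑ a ∈ E i, wt a := by
    calc (M : ℝ) * ∑ a ∈ I, wt a = ∑ _i ∈ range M, ∑ a ∈ I, wt a := by
          rw [sum_const, card_range, nsmul_eq_mul]
      _ ≤ ∑ i ∈ range M, 2 * ∑ a ∈ E i, wt a := sum_le_sum fun i hi => key i (mem_range.1 hi)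
      _ = _ := by rw [mul_sum]
  have h2 : ∑ i ∈ range M, ∑ a ∈ E i, wt a ≤ ((D : ℝ) + 1) ^ R * ∑ a ∈ I, wt a := by
    rw [hdc, mul_sum]
    exact sum_le_sum hex
  have h3 : (M : ℝ) * ∑ a ∈ I, wt a ≤ (2 * ((D : ℝ) + 1) ^ R) * ∑ a ∈ I, wt a := by
    linarith
  have h4 : (M : ℝ) ≤ 2 * ((D : ℝ) + 1) ^ R := le_of_mul_le_mul_right h3 hI
  exact_mod_cast h4

end Pool.Agent.FGT
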