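import Pool.Agent.FGT.WA
import Pool.Agent.FGT.WC

set_option autoImplicit false

namespace Pool.Agent.FGT

open Pool.Agent.MP_515f4e_co

variable {V : Type} {G : SimpleGraph V} {v : V} {pr : V → V → ℝ}

private theorem WD_supp {D : ℕ} (hD : ∀ v, (G.neighborSet v).encard ≤ D) (h : Desc G v pr) (z : V) :
    (Function.support (pr z)).Finite := by
  have hf : (G.neighborSet z).Finite := Set.finite_of_encard_le_coe (hD z)
  refine hf.subset ?_
  intro y hy
  rw [SimpleGraph.mem_neighborSet]
  exact (h.supp z y hy).1.symm

private theorem WD_v (h : Desc G v pr) (y : V) : pr v y = 0 := by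
  by_contra hne
  have h1 := (h.supp v y hne).2
  rw [SimpleGraph.dist_self] at h1
  omega

open Classical in
private theorem WD_zero {D : ℕ} (hD : ∀ v, (G.neighborSet v).encard ≤ D) (x : V) :
    walksF hD x 0 = {[]} := by
  ext w
  rw [mem_walksF, Finset.mem_singleton]
  constructor
  · rintro ⟨-, hw⟩
    exact List.eq_nil_of_length_eq_zero hw
  · rintro rfl
    exact ⟨List.isChain_singleton x, rfl⟩

open Classical in
/-- Induction on `l` with `end_rec`: the sum is at most `∑ᶠ y, pr z y * 1 ≤ 1` (`Desc.sum` for `z ≠ v`;
for `z = v` all `pr z y` are `0` by `supp`).  For `l = 0` the only walk is `[]`, of weight `1`. -/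
theorem end_le_one {D : ℕ} (hD : ∀ v, (G.neighborSet v).encard ≤ D) (h : Desc G v pr) (x z : V)
    (l : ℕ) : ∑ w ∈ (walksF hD x l).filter (fun w => w.getLastD x = z), wgt pr x w ≤ 1 := by
  induction l generalizing z with
  | zero =>
    rw [WD_zero hD x, Finset.filter_singleton]
    split_ifs
    · rw [Finset.sum_singleton]
      exact le_refl (1 : ℝ)
    · rw [Finset.sum_empty]
      exact zero_le_one
  | succ l ih =>
    rw [end_rec hD h x z l]
    have hle : (∑ᶠ y, pr z y * ∑ w ∈ (walksF hD x l).filter (fun w => w.getLastD x = y), wgt pr x w)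
        ≤ ∑ᶠ y, pr z y := by
      refine finsum_le_finsum' ?_ ?_ ?_
      · refine (WD_supp hD h z).subset ?_
        intro y hy
        exact left_ne_zero_of_mul hy
      · exact WD_supp hD h z
      · intro y
        exact mul_le_of_le_one_right (h.nonneg z y) (ih y)
    refine hle.trans ?_
    by_cases hz : z = v
    · subst hz
      have h0 : (fun y => pr z y) = fun _ => (0 : ℝ) := funext (WD_v h)
      rw [h0, finsum_zero]
      exact zero_le_one
    · exact (h.sum z hz).le

open Classical in
/-- Induction on `n` with `end_rec`: if `dist v z = n + 1` then `z ≠ v` and `pr z y ≠ 0` only if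
`dist v y = n`. -/
theorem end_eq_one {D : ℕ} (hc : G.Connected) (hD : ∀ v, (G.neighborSet v).encard ≤ D)
    (h : Desc G v pr) (z : V) (n : ℕ) (hz : G.dist v z = n) :
    ∑ w ∈ (walksF hD v n).filter (fun w => w.getLastD v = z), wgt pr v w = 1 := by
  induction n generalizing z with
  | zero =>
    have hvz : ([] : List V).getLastD v = z := hc.dist_eq_zero_iff.1 hz
    rw [WD_zero hD v, Finset.filter_singleton, if_pos hvz, Finset.sum_singleton]
    rfl
  | succ n ih =>
    rw [end_rec hD h v z n]
    have hzv : z ≠ v := by
      rintro rfl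
      rw [SimpleGraph.dist_self] at hz
      omega
    rw [← h.sum z hzv]
    refine finsum_congr fun y => ?_
    by_cases hy : pr z y = 0
    · rw [hy, zero_mul]
    · have h1 := (h.supp z y hy).2
      rw [ih y (by omega), mul_one]

private theorem WD_nonneg (h : Desc G v pr) (x : V) (w : List V) : 0 ≤ wgt pr x w := by
  induction w generalizing x with
  | nil => exact zero_le_one
  | cons y w ih => exact mul_nonneg (h.nonneg y x) (ih y)

/-- The sum over all walks is at least the sum over the walks that end on the sphere of radius `n`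
(fiberwise over the endpoint, `end_eq_one`); the sphere is finite (`ball_finite`). -/
theorem total_ge {D : ℕ} (hc : G.Connected) (hD : ∀ v, (G.neighborSet v).encard ≤ D)
    (h : Desc G v pr) (n : ℕ) :
    ({z : V | G.dist v z = n}.ncard : ℝ) ≤ ∑ w ∈ walksF hD v n, wgt pr v w := by
  classical
  have hfin : {z : V | G.dist v z = n}.Finite := by
    refine (ball_finite hc hD v n).subset ?_
    intro z hz
    rw [mem_ball]
    exact le_of_eq hz
  have h1 := Finset.sum_fiberwise_le_sum_of_sum_fiber_nonneg (s := walksF hD v n)
    (t := hfin.toFinset) (g := fun w => w.getLastD v) (f := fun w => wgt pr v w)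
    (fun y _ => Finset.sum_nonneg fun w _ => WD_nonneg h v w)
  refine le_trans (le_of_eq ?_) h1
  rw [Set.ncard_eq_toFinset_card _ hfin]
  have h2 : ∀ z ∈ hfin.toFinset,
      ∑ w ∈ (walksF hD v n).filter (fun w => w.getLastD v = z), wgt pr v w = 1 := by
    intro z hz
    rw [Set.Finite.mem_toFinset] at hz
    exact end_eq_one hc hD h z n hz
  rw [Finset.sum_congr rfl h2, Finset.sum_const, nsmul_eq_mul, mul_one]

end Pool.Agent.FGT
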