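import Pool.Agent.FGT.GrA

set_option autoImplicit false

namespace Pool.Agent.FGT

open Pool.Agent.MP_515f4e_co

/-- a kernel descending to `v`: from `y ≠ v` one moves with probability `pr y x` to the neighbour `x`
of `y`, which is nearer to `v` than `y` -/
structure Desc {V : Type} (G : SimpleGraph V) (v : V) (pr : V → V → ℝ) : Prop where
  nonneg : ∀ y x, 0 ≤ pr y x
  supp : ∀ y x, pr y x ≠ 0 → G.Adj x y ∧ G.dist v y = G.dist v x + 1
  sum : ∀ y, y ≠ v → ∑ᶠ x, pr y x = 1

/-- the weight of the walk `x, w₁, …, w_n` -/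
def wgt {V : Type} (pr : V → V → ℝ) : V → List V → ℝ
  | _, [] => 1
  | x, y :: w => pr y x * wgt pr y w

/-- the total weight of the walks of length `l` from `x` -/
noncomputable def WW {V : Type} (pr : V → V → ℝ) : V → ℕ → ℝ
  | _, 0 => 1
  | x, l + 1 => ∑ᶠ y, pr y x * WW pr y l

/-- the walks of length `n` from `x`, as a finset -/
noncomputable def walksF {V : Type} {G : SimpleGraph V} {D : ℕ}
    (hD : ∀ v, (G.neighborSet v).encard ≤ D) (x : V) (n : ℕ) : Finset (List V) :=
  (walks_finite hD x n).toFinset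

theorem mem_walksF {V : Type} {G : SimpleGraph V} {D : ℕ}
    (hD : ∀ v, (G.neighborSet v).encard ≤ D) (x : V) (n : ℕ) (w : List V) :
    w ∈ walksF hD x n ↔ List.IsChain G.Adj (x :: w) ∧ w.length = n := by
  unfold walksF
  rw [Set.Finite.mem_toFinset, Set.mem_ofPred_eq]

end Pool.Agent.FGT
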