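import Pool.Agent.FGT.WA
import Pool.Agent.FGT.WB
import Pool.Agent.FGT.WD

set_option autoImplicit false

namespace Pool.Agent.FGT

open Pool.Agent.MP_515f4e_co

variable {V : Type} {G : SimpleGraph V} {v : V} {pr : V → V → ℝ}

theorem WE_chain (x : V) (u w : List V) :
    List.IsChain G.Adj (x :: (u ++ w)) ↔
      List.IsChain G.Adj (x :: u) ∧ List.IsChain G.Adj (u.getLastD x :: w) := by
  induction u generalizing x with
  | nil => simp
  | cons a u ih =>
    rw [List.cons_append, List.isChain_cons_cons, List.isChain_cons_cons, ih a,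
      List.getLastD_cons, and_assoc]

theorem WE_last (x : V) (u w : List V) : (u ++ w).getLastD x = w.getLastD (u.getLastD x) := by
  induction u generalizing x with
  | nil => rfl
  | cons a u ih => rw [List.cons_append, List.getLastD_cons, List.getLastD_cons, ih a]

open Classical in
theorem WE_image {D : ℕ} (hD : ∀ v, (G.neighborSet v).encard ≤ D) (x : V)
    (u : List V) (j l : ℕ) (hu : u ∈ walksF hD x j) :
    (walksF hD x (j + l)).filter (fun b => b.take j = u) =
      (walksF hD (u.getLastD x) l).image (fun w => u ++ w) := by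
  rw [mem_walksF] at hu
  ext b
  rw [Finset.mem_filter, Finset.mem_image, mem_walksF]
  constructor
  · rintro ⟨⟨h1, h2⟩, h3⟩
    have hb : u ++ b.drop j = b := by
      rw [← h3]
      exact List.take_append_drop j b
    refine ⟨b.drop j, ?_, hb⟩
    rw [mem_walksF]
    refine ⟨?_, ?_⟩
    · rw [← hb, WE_chain] at h1
      exact h1.2
    · rw [List.length_drop, h2]
      omega
  · rintro ⟨w, hw, rfl⟩
    rw [mem_walksF] at hw
    refine ⟨⟨?_, ?_⟩, ?_⟩
    · rw [WE_chain]
      exact ⟨hu.1, hw.1⟩
    · rw [List.length_append, hu.2, hw.2]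
    · rw [← hu.2, List.take_left]

open Classical in
/-- `b ↦ b.drop j` is a bijection from the filtered set onto `walksF hD (u.getLastD v) l` (inverse
`w ↦ u ++ w`); `wgt_append` and `sum_wgt`. -/
theorem fiber_sum {D : ℕ} (hD : ∀ v, (G.neighborSet v).encard ≤ D) (h : Desc G v pr) (x : V)
    (u : List V) (j l : ℕ) (hu : u ∈ walksF hD x j) :
    ∑ b ∈ (walksF hD x (j + l)).filter (fun b => b.take j = u), wgt pr x b =
      wgt pr x u * WW pr (u.getLastD x) l := by
  rw [WE_image hD x u j l hu, Finset.sum_image fun a _ b _ hab => List.append_cancel_left hab,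
    ← sum_wgt hD h, Finset.mul_sum]
  exact Finset.sum_congr rfl fun w _ => wgt_append pr x u w

open Classical in
/-- The same bijection, with the endpoint `z` fixed; `end_le_one`.  (If the filtered set is empty the sum is
`0 ≤ wgt pr x u`; otherwise `u ∈ walksF hD x j`.) -/
theorem fiber_end_le {D : ℕ} (hD : ∀ v, (G.neighborSet v).encard ≤ D) (h : Desc G v pr) (x : V)
    (u : List V) (j l : ℕ) (z : V) (hu : u ∈ walksF hD x j) :
    ∑ b ∈ (walksF hD x (j + l)).filter (fun b => b.take j = u ∧ b.getLastD x = z), wgt pr x b ≤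
      wgt pr x u := by
  have h1 : (walksF hD x (j + l)).filter (fun b => b.take j = u ∧ b.getLastD x = z) =
      ((walksF hD (u.getLastD x) l).filter (fun w => w.getLastD (u.getLastD x) = z)).image
        (fun w => u ++ w) := by
    rw [← Finset.filter_filter, WE_image hD x u j l hu]
    ext b
    simp only [Finset.mem_filter, Finset.mem_image]
    constructor
    · rintro ⟨⟨w, hw, rfl⟩, hb⟩
      exact ⟨w, ⟨hw, by rwa [WE_last] at hb⟩, rfl⟩
    · rintro ⟨w, ⟨hw, hz⟩, rfl⟩
      exact ⟨⟨w, hw, rfl⟩, by rwa [WE_last]⟩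
  rw [h1, Finset.sum_image fun a _ b _ hab => List.append_cancel_left hab]
  simp only [wgt_append]
  rw [← Finset.mul_sum]
  have h2 := end_le_one hD h (u.getLastD x) z l
  calc _ ≤ wgt pr x u * 1 := mul_le_mul_of_nonneg_left h2 (wgt_nonneg h x u)
    _ = wgt pr x u := mul_one _

end Pool.Agent.FGT
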