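import Pool.Agent.FGT.WA
import Pool.Agent.FGT.WB
import Pool.Agent.FGT.WD

set_option autoImplicit false

namespace Pool.Agent.FGT

open Pool.Agent.MP_515f4e_co

variable {V : Type} {G : SimpleGraph V} {v : V} {pr : V → V → ℝ}

/-- `sum_wgt`, split by the endpoint `z ∈ ball G x l` (`take_dist` with `i = 0`), `end_le_one`. -/
theorem WW_le_ball {D : ℕ} (hc : G.Connected) (hD : ∀ v, (G.neighborSet v).encard ≤ D)
    (h : Desc G v pr) (x : V) (l : ℕ) : WW pr x l ≤ ((ball G x l).ncard : ℝ) := by
  classical
  rw [← sum_wgt hD h x l]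
  have hfin : (ball G x l).Finite := ball_finite hc hD x l
  have hmap : ∀ w ∈ walksF hD x l, w.getLastD x ∈ hfin.toFinset := by
    intro w hw
    rw [mem_walksF] at hw
    rw [Set.Finite.mem_toFinset]
    show G.dist x (w.getLastD x) ≤ l
    have h1 := take_dist hc x w hw.1 0 l
    rw [List.take_zero, Nat.zero_add, List.take_of_length_le (le_of_eq hw.2)] at h1
    simpa using h1
  rw [← Finset.sum_fiberwise_of_maps_to hmap]
  calc ∑ z ∈ hfin.toFinset, ∑ w ∈ (walksF hD x l).filter (fun w => w.getLastD x = z), wgt pr x w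
      ≤ ∑ z ∈ hfin.toFinset, (1 : ℝ) :=
        Finset.sum_le_sum (fun z _ => end_le_one hD h x z l)
    _ = ((ball G x l).ncard : ℝ) := by
        rw [Finset.sum_const, nsmul_eq_mul, mul_one, Set.ncard_eq_toFinset_card _ hfin]

private theorem WF_rec {D : ℕ} (hD : ∀ v, (G.neighborSet v).encard ≤ D) (h : Desc G v pr) (x : V)
    (hf : (G.neighborSet x).Finite) (l : ℕ) :
    WW pr x (l + 1) = ∑ y ∈ hf.toFinset, pr y x * WW pr y l := by
  show ∑ᶠ y, pr y x * WW pr y l = _
  apply finsum_eq_sum_of_support_subset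
  intro y hy
  rw [Function.mem_support] at hy
  rw [Set.Finite.coe_toFinset]
  exact (h.supp y x (left_ne_zero_of_mul hy)).1

private theorem WF_card {D : ℕ} (hD : ∀ v, (G.neighborSet v).encard ≤ D) (x : V)
    (hf : (G.neighborSet x).Finite) : hf.toFinset.card ≤ D := by
  have h1 := hD x
  rw [hf.encard_eq_coe_toFinset_card] at h1
  exact_mod_cast h1

private theorem WF_one {D : ℕ} (hD : ∀ v, (G.neighborSet v).encard ≤ D) (h : Desc G v pr) (x : V)
    (l : ℕ) : WW pr x (l + 1) ≤ (D : ℝ) * WW pr x l := by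
  induction l generalizing x with
  | zero =>
    have hf : (G.neighborSet x).Finite := Set.finite_of_encard_le_coe (hD x)
    rw [WF_rec hD h x hf]
    calc ∑ y ∈ hf.toFinset, pr y x * WW pr y 0 ≤ ∑ y ∈ hf.toFinset, (1 : ℝ) := by
          apply Finset.sum_le_sum
          intro y _
          show pr y x * 1 ≤ 1
          rw [mul_one]
          exact pr_le_one hD h y x
      _ = (hf.toFinset.card : ℝ) := by rw [Finset.sum_const, nsmul_eq_mul, mul_one]
      _ ≤ (D : ℝ) := by exact_mod_cast WF_card hD x hf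
      _ = (D : ℝ) * WW pr x 0 := by
          show (D : ℝ) = D * 1
          rw [mul_one]
  | succ l ih =>
    have hf : (G.neighborSet x).Finite := Set.finite_of_encard_le_coe (hD x)
    rw [WF_rec hD h x hf (l + 1), WF_rec hD h x hf l, Finset.mul_sum]
    apply Finset.sum_le_sum
    intro y _
    calc pr y x * WW pr y (l + 1) ≤ pr y x * (D * WW pr y l) :=
          mul_le_mul_of_nonneg_left (ih y) (h.nonneg y x)
      _ = _ := by ring

/-- `k = 1` by induction on `l` (`WW pr x 1 = ∑ᶠ y, pr y x ≤ D` by `pr_le_one`, at most `D` neighbours; step: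
`WW pr x (l+2) = ∑ᶠ y, pr y x * WW pr y (l+1) ≤ ∑ᶠ y, pr y x * (D * WW pr y l)`), then induction on `k`. -/
theorem WW_add_le {D : ℕ} (hD : ∀ v, (G.neighborSet v).encard ≤ D) (h : Desc G v pr) (x : V)
    (l k : ℕ) : WW pr x (l + k) ≤ (D : ℝ) ^ k * WW pr x l := by
  induction k with
  | zero => rw [Nat.add_zero, pow_zero, one_mul]
  | succ k ih =>
    rw [← Nat.add_assoc]
    calc WW pr x (l + k + 1) ≤ (D : ℝ) * WW pr x (l + k) := WF_one hD h x (l + k)
      _ ≤ (D : ℝ) * ((D : ℝ) ^ k * WW pr x l) :=
          mul_le_mul_of_nonneg_left ih (Nat.cast_nonneg D)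
      _ = _ := by rw [pow_succ]; ring

/-- at most `D ^ n` walks of length `n` (induction on `n`) -/
theorem card_walksF_le {D : ℕ} (hD : ∀ v, (G.neighborSet v).encard ≤ D) (x : V) (n : ℕ) :
    (walksF hD x n).card ≤ D ^ n := by
  classical
  induction n generalizing x with
  | zero =>
    rw [pow_zero]
    have hsub : walksF hD x 0 ⊆ {([] : List V)} := by
      intro w hw
      rw [mem_walksF] at hw
      rw [Finset.mem_singleton]
      exact List.eq_nil_of_length_eq_zero hw.2
    exact (Finset.card_le_card hsub).trans (by simp)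
  | succ n ih =>
    have hf : (G.neighborSet x).Finite := Set.finite_of_encard_le_coe (hD x)
    have hsub : walksF hD x (n + 1) ⊆
        hf.toFinset.biUnion (fun y => (walksF hD y n).image (fun w => y :: w)) := by
      intro w hw
      rw [mem_walksF] at hw
      obtain ⟨h1, h2⟩ := hw
      cases w with
      | nil => simp at h2
      | cons y w =>
        rw [List.isChain_cons_cons] at h1
        rw [Finset.mem_biUnion]
        refine ⟨y, ?_, ?_⟩
        · rw [Set.Finite.mem_toFinset]
          exact h1.1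
        · rw [Finset.mem_image]
          refine ⟨w, ?_, rfl⟩
          rw [mem_walksF]
          refine ⟨h1.2, ?_⟩
          rw [List.length_cons] at h2
          omega
    calc (walksF hD x (n + 1)).card ≤ _ := Finset.card_le_card hsub
      _ ≤ ∑ y ∈ hf.toFinset, ((walksF hD y n).image (fun w => y :: w)).card :=
          Finset.card_biUnion_le
      _ ≤ ∑ y ∈ hf.toFinset, D ^ n :=
          Finset.sum_le_sum (fun y _ => Finset.card_image_le.trans (ih y))
      _ = hf.toFinset.card * D ^ n := by rw [Finset.sum_const, smul_eq_mul]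
      _ ≤ D * D ^ n := Nat.mul_le_mul_right _ (WF_card hD x hf)
      _ = D ^ (n + 1) := by rw [pow_succ, Nat.mul_comm]

end Pool.Agent.FGT
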