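import Pool.Agent.FGT.Win
import Pool.Agent.FGT.WChain
import Pool.Agent.FGT.WE
import Pool.Agent.FGT.WF
import Pool.Agent.FGT.GrD

set_option autoImplicit false

namespace Pool.Agent.FGT

open Finset Pool.Agent.MP_515f4e_co

private theorem wmain_take {V : Type} {G : SimpleGraph V} {D : ℕ}
    (hD : ∀ v, (G.neighborSet v).encard ≤ D) (v : V) (n j : ℕ) (hj : j ≤ n) (w : List V)
    (hw : w ∈ walksF hD v n) : w.take j ∈ walksF hD v j := by
  rw [mem_walksF] at hw ⊢
  refine ⟨?_, ?_⟩
  · have h1 : (v :: w).take (j + 1) = v :: w.take j := by rw [List.take_succ_cons]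
    rw [← h1]
    exact hw.1.take (j + 1)
  · rw [List.length_take, hw.2]
    omega

/-- (B2): finitely many growth types of a descending kernel are incompatible with uniform expansion of
all balls. -/
theorem wmain {V : Type} {G : SimpleGraph V} [Infinite V] (hc : G.Connected) {D : ℕ}
    (hD : ∀ v, (G.neighborSet v).encard ≤ D) {c : ℝ} (hc0 : 0 < c) (hexp : BallsExpand G c)
    (R : Set V) (C : ℕ)
    (hR : ∀ (x : V) (l : ℕ), ∃ v ∈ R, (ball G x l).ncard ≤ C * (ball G v l).ncard)
    (pr : V → V → V → ℝ) (hpr : ∀ v ∈ R, Desc G v (pr v))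
    {Q : ℕ} (F : Fin Q → ℕ → ℝ)
    (htype : ∀ v ∈ R, ∀ x, ∃ i, ∀ l, WW (pr v) x l ≤ C * F i l ∧
      F i l ≤ C * WW (pr v) x l) : False := by
  classical
  have hne : Nonempty V := hc.nonempty
  have hC1 : 1 ≤ C := by
    obtain ⟨v, _, hv⟩ := hR hne.some 0
    have := ncard_ball_pos hc hD hne.some 0
    rcases Nat.eq_zero_or_pos C with h | h
    · rw [h, zero_mul] at hv; omega
    · exact h
  have hCr : (1 : ℝ) ≤ (C : ℝ) := by exact_mod_cast hC1
  have hC0 : (0 : ℝ) < (C : ℝ) := by linarith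
  have hD0 : (0 : ℝ) < (D : ℝ) + 1 := by positivity
  have hD1 : (1 : ℝ) ≤ (D : ℝ) + 1 := by
    have : (0 : ℝ) ≤ D := by positivity
    linarith
  have hone : (1 : ℝ) < 1 + c := by linarith
  let used : Fin Q → Prop := fun i => ∃ v ∈ R, ∃ x, ∀ l, WW (pr v) x l ≤ C * F i l ∧
      F i l ≤ C * WW (pr v) x l
  let F' : Fin Q → ℕ → ℝ := fun i l => if used i then F i l else 0
  have hF'0 : ∀ i l, 0 ≤ F' i l := by
    intro i l
    simp only [F']
    split_ifs with h
    · obtain ⟨v, hv, x, hF⟩ := h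
      have h1 := (hF l).1
      have h2 := WW_nonneg (hpr v hv) x l
      by_contra hcon
      have h3 : F i l < 0 := not_le.1 hcon
      nlinarith
    · exact le_rfl
  have hMpos : ∀ l, (0 : ℝ) < (Mx G l : ℝ) := fun l => by exact_mod_cast Mx_pos hc hD l
  have hMmono : ∀ l k, (Mx G l : ℝ) ≤ Mx G (l + k) := by
    intro l k
    have h1 := Mx_growth hc hD hc0 hexp l k
    have h2 : (1 : ℝ) ≤ (1 + c) ^ k := one_le_pow₀ (by linarith)
    have h3 := hMpos l
    nlinarith
  have hF' : ∀ i l k, F' i (l + k) ≤ (C : ℝ) ^ 2 * ((D : ℝ) + 1) ^ k * F' i l := by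
    intro i l k
    simp only [F']
    split_ifs with h
    · obtain ⟨v, hv, x, hF⟩ := h
      have h1 := (hF (l + k)).2
      have h2 := WW_add_le hD (hpr v hv) x l k
      have h3 := (hF l).1
      have h0 := WW_nonneg (hpr v hv) x l
      have h00 : 0 ≤ (C : ℝ) * F i l := h0.trans h3
      calc F i (l + k) ≤ C * WW (pr v) x (l + k) := h1
        _ ≤ C * ((D : ℝ) ^ k * WW (pr v) x l) := by gcongr
        _ ≤ C * (((D : ℝ) + 1) ^ k * (C * F i l)) := by
            gcongr
            linarith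
        _ = _ := by ring
    · simp
  obtain ⟨Z, δ0, hδ0, hwin⟩ := windows F' (fun l => (Mx G l : ℝ)) ((C : ℝ) ^ 2) ((D : ℝ) + 1)
    (one_le_pow₀ hCr) hD1 hF'0 hMpos hMmono hF'
  -- parameters
  set δ : ℝ := δ0 / C with hδdef
  have hδ : 0 < δ := by positivity
  obtain ⟨k, hk⟩ := pow_unbounded_of_one_lt (2 / δ) hone
  obtain ⟨ρ, hρ⟩ := pow_unbounded_of_one_lt (4 / δ) hone
  set M : ℕ := 2 * (D + 1) ^ ρ + 1 with hMdef
  set m : ℕ := M * k with hm
  set c1 : ℝ := c / ((1 + c) * C) with hc1
  have hc1pos : 0 < c1 := by positivity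
  set η : ℝ := c1 / (8 * C * ((D : ℝ) + 1) ^ m) with hη
  have hηpos : 0 < η := by positivity
  obtain ⟨l, hl⟩ := hwin η hηpos m
  set n : ℕ := l + m with hn
  obtain ⟨x, hx⟩ := exists_Mx hc hD n
  obtain ⟨v, hv, hxv⟩ := hR x n
  rw [hx] at hxv
  have hP := hpr v hv
  let I : Finset (List V) := walksF hD v n
  let wt : List V → ℝ := fun w => wgt (pr v) v w
  have hwt : ∀ w, 0 ≤ wt w := fun w => wgt_nonneg hP v w
  have hlow : c1 * (Mx G n : ℝ) ≤ ∑ w ∈ I, wt w := by
    have h1 := sphere_ge hc hD hc0 hexp v n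
    have h2 : ({z : V | G.dist v z = n}.ncard : ℝ) ≤ ∑ w ∈ I, wt w := total_ge hc hD hP n
    have h3 : (Mx G n : ℝ) ≤ C * ((ball G v n).ncard : ℝ) := by exact_mod_cast hxv
    have h4 : c * (Mx G n : ℝ) ≤ (∑ w ∈ I, wt w) * ((1 + c) * C) := by
      calc c * (Mx G n : ℝ) ≤ c * (C * ((ball G v n).ncard : ℝ)) := by gcongr
        _ = C * (c * ((ball G v n).ncard : ℝ)) := by ring
        _ ≤ C * ((1 + c) * ({z : V | G.dist v z = n}.ncard : ℝ)) := by gcongr
        _ ≤ C * ((1 + c) * (∑ w ∈ I, wt w)) := by gcongr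
        _ = _ := by ring
    rw [hc1, div_mul_eq_mul_div, div_le_iff₀ (by positivity)]
    exact h4
  have htotpos : 0 < ∑ w ∈ I, wt w := lt_of_lt_of_le (mul_pos hc1pos (hMpos n)) hlow
  -- types
  have hneQ : Nonempty (Fin Q) := by
    obtain ⟨i, _⟩ := htype v hv v
    exact ⟨i⟩
  choose cls hcls using htype v hv
  have hused : ∀ y t, F' (cls y) t = F (cls y) t := by
    intro y t
    simp only [F']
    rw [if_pos]
    exact ⟨v, hv, y, hcls y⟩
  have hlenI : ∀ w ∈ I, w.length = n := fun w hw => ((mem_walksF hD v n w).1 hw).2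
  -- bad walks
  have hbad : ∀ j ≤ m, 8 * ∑ w ∈ I.filter (fun w => cls ((w.take j).getLastD v) ∈ Z), wt w ≤
      ∑ w ∈ I, wt w := by
    intro j hj
    have hjn : j ≤ n := by omega
    set B := (walksF hD v j).filter (fun u => cls (u.getLastD v) ∈ Z) with hB
    have hmaps : ∀ w ∈ I.filter (fun w => cls ((w.take j).getLastD v) ∈ Z), w.take j ∈ B := by
      intro w hw
      obtain ⟨hw1, hw2⟩ := mem_filter.1 hw
      exact mem_filter.2 ⟨wmain_take hD v n j hjn w hw1, hw2⟩
    have h1 : ∑ w ∈ I.filter (fun w => cls ((w.take j).getLastD v) ∈ Z), wt w =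
        ∑ u ∈ B, ∑ w ∈ (I.filter (fun w => cls ((w.take j).getLastD v) ∈ Z)).filter
          (fun w => w.take j = u), wt w := (sum_fiberwise_of_maps_to hmaps _).symm
    have h2 : ∀ u ∈ B, ∑ w ∈ (I.filter (fun w => cls ((w.take j).getLastD v) ∈ Z)).filter
          (fun w => w.take j = u), wt w ≤ C * (η * Mx G n) := by
      intro u hu
      obtain ⟨hu1, hu2⟩ := mem_filter.1 hu
      have e1 : ∑ w ∈ (I.filter (fun w => cls ((w.take j).getLastD v) ∈ Z)).filter
          (fun w => w.take j = u), wt w ≤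
          ∑ w ∈ (walksF hD v (j + (n - j))).filter (fun b => b.take j = u), wt w := by
        refine sum_le_sum_of_subset_of_nonneg ?_ (fun _ _ _ => hwt _)
        intro w hw
        obtain ⟨hw1, hw2⟩ := mem_filter.1 hw
        rw [Nat.add_sub_cancel' hjn]
        exact mem_filter.2 ⟨(mem_filter.1 hw1).1, hw2⟩
      rw [fiber_sum hD hP v u j (n - j) hu1] at e1
      have h3 := (hl (m - j) (by omega)).1 (cls (u.getLastD v)) hu2
      rw [hused, show l + (m - j) = n - j by omega] at h3
      have h4 := (hcls (u.getLastD v) (n - j)).1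
      have h5 : (Mx G (n - j) : ℝ) ≤ Mx G n := by
        have := hMmono (n - j) j
        rwa [Nat.sub_add_cancel (by omega)] at this
      have h6 := wgt_le_one hD hP v u
      have h7 := WW_nonneg hP (u.getLastD v) (n - j)
      refine e1.trans ?_
      calc wgt (pr v) v u * WW (pr v) (u.getLastD v) (n - j)
        _ ≤ 1 * WW (pr v) (u.getLastD v) (n - j) := by gcongr
        _ = WW (pr v) (u.getLastD v) (n - j) := one_mul _
        _ ≤ C * F (cls (u.getLastD v)) (n - j) := h4
        _ ≤ C * (η * Mx G (n - j)) := by gcongr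
        _ ≤ _ := by gcongr
    have h3 : (B.card : ℝ) ≤ ((D : ℝ) + 1) ^ m := by
      have h4 : B.card ≤ (D + 1) ^ j := by
        refine (card_filter_le _ _).trans ((card_walksF_le hD v j).trans ?_)
        gcongr
        omega
      calc (B.card : ℝ) ≤ ((D : ℝ) + 1) ^ j := by exact_mod_cast h4
        _ ≤ _ := pow_le_pow_right₀ hD1 hj
    calc 8 * ∑ w ∈ I.filter (fun w => cls ((w.take j).getLastD v) ∈ Z), wt w
        ≤ 8 * ∑ u ∈ B, (C * (η * Mx G n) : ℝ) := by
          rw [h1]
          gcongr with u hu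
          exact h2 u hu
      _ = 8 * ((B.card : ℝ) * (C * (η * Mx G n))) := by
          rw [sum_const, nsmul_eq_mul]
      _ ≤ 8 * (((D : ℝ) + 1) ^ m * (C * (η * Mx G n))) := by
          gcongr
      _ = c1 * Mx G n := by
          rw [hη]
          field_simp
      _ ≤ _ := hlow
  -- apply the chain lemma
  have key := wchain hc hD hc0 hexp I wt (fun a _ => hwt a) htotpos
    (fun w i => (w.take i).getLastD v) (fun w i => w.take i) (fun u => wgt (pr v) v u)
    (fun u => wgt_nonneg hP v u) n k M ρ 1 δ zero_le_one hδ ?_ ?_ ?_ (by omega) ?_ ?_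
  · omega
  · intro w hw i t
    exact take_dist hc v w ((mem_walksF hD v n w).1 hw).1 i t
  · intro a _ b _ i j hij hab
    have h1 : a.take j = (a.take i).take j := by rw [List.take_take, min_eq_left hij]
    have h2 : b.take j = (b.take i).take j := by rw [List.take_take, min_eq_left hij]
    have hab' : a.take i = b.take i := hab
    show (a.take j).getLastD v = (b.take j).getLastD v
    rw [h1, h2, hab']
  · intro i hi a ha z
    have hik : (i + 1) * k ≤ m := Nat.mul_le_mul_right _ hi
    have hik' : (i + 1) * k ≤ n := by omega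
    have h1 := fiber_end_le hD hP v (a.take ((i + 1) * k)) ((i + 1) * k) (n - (i + 1) * k) z
      (wmain_take hD v n _ hik' a ha)
    rw [Nat.add_sub_cancel' hik'] at h1
    rw [one_mul]
    refine le_trans (le_of_eq ?_) h1
    refine sum_congr ?_ (fun _ _ => rfl)
    ext b
    simp only [mem_filter]
    refine and_congr_right fun hb => ?_
    have hbn : b.take n = b := List.take_of_length_le (by rw [hlenI b hb])
    show _ ∧ (b.take n).getLastD v = z ↔ _
    rw [hbn]
  · rw [div_lt_iff₀ hδ] at hρ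
    linarith
  · intro i hi
    have hik : (i + 1) * k ≤ m := Nat.mul_le_mul_right _ hi
    have hik' : (i + 1) * k = i * k + k := by ring
    have hb1 := hbad (i * k) (by omega)
    have hb2 := hbad ((i + 1) * k) hik
    set B1 := I.filter (fun w => cls ((w.take (i * k)).getLastD v) ∈ Z) with hB1
    set B2 := I.filter (fun w => cls ((w.take ((i + 1) * k)).getLastD v) ∈ Z) with hB2
    set GG := I.filter (fun a => 2 * (ball G ((a.take ((i + 1) * k)).getLastD v)
          (n - (i + 1) * k)).ncard ≤ (ball G ((a.take (i * k)).getLastD v) (n - i * k)).ncard ∧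
        δ * wgt (pr v) v (a.take ((i + 1) * k)) *
          ((ball G ((a.take ((i + 1) * k)).getLastD v) (n - (i + 1) * k)).ncard : ℝ) ≤
          ∑ b ∈ I.filter (fun b => b.take ((i + 1) * k) = a.take ((i + 1) * k)), wt b) with hGG
    have hsub : I ⊆ (B1 ∪ B2) ∪ GG := by
      intro w hwI
      by_cases hw1 : w ∈ B1
      · exact mem_union_left _ (mem_union_left _ hw1)
      by_cases hw2 : w ∈ B2
      · exact mem_union_left _ (mem_union_right _ hw2)
      apply mem_union_right
      have hw1' : cls ((w.take (i * k)).getLastD v) ∉ Z := fun h => hw1 (mem_filter.2 ⟨hwI, h⟩)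
      have hw2' : cls ((w.take ((i + 1) * k)).getLastD v) ∉ Z :=
        fun h => hw2 (mem_filter.2 ⟨hwI, h⟩)
      have e1 := (hl (m - i * k) (by omega)).2 _ hw1'
      have e2 := (hl (m - (i + 1) * k) (by omega)).2 _ hw2'
      rw [hused, show l + (m - i * k) = n - i * k by omega] at e1
      rw [hused, show l + (m - (i + 1) * k) = n - (i + 1) * k by omega] at e2
      have g1 := (hcls ((w.take (i * k)).getLastD v) (n - i * k)).2
      have g2 := (hcls ((w.take ((i + 1) * k)).getLastD v) (n - (i + 1) * k)).2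
      have g3 := WW_le_ball hc hD hP ((w.take (i * k)).getLastD v) (n - i * k)
      have g4 : ((ball G ((w.take ((i + 1) * k)).getLastD v) (n - (i + 1) * k)).ncard : ℝ) ≤
          Mx G (n - (i + 1) * k) := by
        exact_mod_cast le_Mx hc hD _ _
      have g5 := Mx_growth hc hD hc0 hexp (n - (i + 1) * k) k
      rw [show n - (i + 1) * k + k = n - i * k by omega] at g5
      have hw0 := wgt_nonneg hP v (w.take ((i + 1) * k))
      refine mem_filter.2 ⟨hwI, ?_, ?_⟩
      · have hkk : 2 < (1 + c) ^ k * δ := by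
          rwa [div_lt_iff₀ hδ] at hk
        have hMx := hMpos (n - (i + 1) * k)
        have h9 : (2 * ((ball G ((w.take ((i + 1) * k)).getLastD v)
            (n - (i + 1) * k)).ncard : ℝ)) ≤
            ((ball G ((w.take (i * k)).getLastD v) (n - i * k)).ncard : ℝ) := by
          calc (2 * ((ball G ((w.take ((i + 1) * k)).getLastD v)
            (n - (i + 1) * k)).ncard : ℝ)) ≤ 2 * (Mx G (n - (i + 1) * k) : ℝ) := by gcongr
            _ ≤ (1 + c) ^ k * δ * (Mx G (n - (i + 1) * k) : ℝ) := by gcongr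
            _ = δ * ((1 + c) ^ k * (Mx G (n - (i + 1) * k) : ℝ)) := by ring
            _ ≤ δ * (Mx G (n - i * k) : ℝ) := by gcongr
            _ ≤ WW (pr v) ((w.take (i * k)).getLastD v) (n - i * k) := by
                rw [hδdef, div_mul_eq_mul_div, div_le_iff₀ hC0]
                linarith
            _ ≤ _ := g3
        exact_mod_cast h9
      · have h10 := fiber_sum hD hP v (w.take ((i + 1) * k)) ((i + 1) * k) (n - (i + 1) * k)
          (wmain_take hD v n _ (by omega) w hwI)
        rw [Nat.add_sub_cancel' (show (i + 1) * k ≤ n by omega)] at h10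
        rw [h10]
        calc δ * wgt (pr v) v (w.take ((i + 1) * k)) *
            ((ball G ((w.take ((i + 1) * k)).getLastD v) (n - (i + 1) * k)).ncard : ℝ)
            ≤ δ * wgt (pr v) v (w.take ((i + 1) * k)) * (Mx G (n - (i + 1) * k) : ℝ) := by
              gcongr
          _ = wgt (pr v) v (w.take ((i + 1) * k)) * (δ * (Mx G (n - (i + 1) * k) : ℝ)) := by ring
          _ ≤ _ := by
              gcongr
              rw [hδdef, div_mul_eq_mul_div, div_le_iff₀ hC0]
              linarith
    have h1 : ∑ w ∈ I, wt w ≤ ∑ w ∈ (B1 ∪ B2) ∪ GG, wt w :=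
      sum_le_sum_of_subset_of_nonneg hsub (fun _ _ _ => hwt _)
    have hun : ∀ X Y : Finset (List V), ∑ w ∈ X ∪ Y, wt w ≤ ∑ w ∈ X, wt w + ∑ w ∈ Y, wt w := by
      intro X Y
      have h2 := sum_union_inter (s₁ := X) (s₂ := Y) (f := wt)
      have h3 : 0 ≤ ∑ w ∈ X ∩ Y, wt w := sum_nonneg (fun _ _ => hwt _)
      linarith
    have h2 := hun (B1 ∪ B2) GG
    have h3 := hun B1 B2
    have h7 : 3 * ∑ w ∈ I, wt w ≤ 4 * ∑ w ∈ GG, wt w := by linarith
    rw [hGG] at h7
    convert h7

end Pool.Agent.FGT
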