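import Mathlib

set_option autoImplicit false

namespace Pool.Agent.FGT

/-- WINDOWS.  PROOF.  For a set `Z` of indices let `P Z` be: for all `η > 0` and all `m` there is `l`
with `F i (l + j) ≤ η * s (l + j)` for all `i ∈ Z` and `j ≤ m`.  `P ∅` is true.  Take `Z` with `P Z`
of maximal cardinality (`Finset (Fin Q)` is finite).  Suppose no `δ` works for this `Z`: for every
`δ > 0` there are `η > 0` and `m` such that for every `l` the window `[l, l + m]` fails for
`(Z, η, δ)`.  Let `η' > 0`, `m'` be arbitrary, `δ := η' / (E0 * E ^ m')`, and `η, m` as above.  Apply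
`P Z` with `min η η'` and `m + m'`: get `l`.  The window `[l, l+m]` fails, and the first alternative
is impossible, so there are `j ≤ m` and `i ∉ Z` with `F i (l + j) < δ * s (l + j)`.  For `k ≤ m'`:
`F i (l + j + k) ≤ E0 * E ^ k * F i (l + j) ≤ E0 * E ^ m' * δ * s (l + j) = η' * s (l + j)
≤ η' * s (l + j + k)`.  So with `l' = l + j` all indices of `insert i Z` satisfy the bound with `η'` on
`[l', l' + m']`.  Hence: for all `η', m'` there is `i ∉ Z` such that the bound holds for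
`insert i Z` on some window `[l', l' + m']`.  Pigeonhole: if for each `i ∉ Z` the property
`P (insert i Z)` failed for `(η_i, m_i)`, take `η' =` the minimum of the `η_i` (and 1) and `m' =` the
maximum of the `m_i`: contradiction.  So `P (insert i Z)` for some `i ∉ Z`, against maximality. -/
theorem windows {Q : ℕ} (F : Fin Q → ℕ → ℝ) (s : ℕ → ℝ) (E0 E : ℝ) (hE0 : 1 ≤ E0) (hE : 1 ≤ E)
    (hF0 : ∀ i l, 0 ≤ F i l) (hs : ∀ l, 0 < s l) (hmono : ∀ l k, s l ≤ s (l + k))
    (hF : ∀ i l k, F i (l + k) ≤ E0 * E ^ k * F i l) :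
    ∃ (Z : Finset (Fin Q)) (δ : ℝ), 0 < δ ∧ ∀ η : ℝ, 0 < η → ∀ m : ℕ, ∃ l : ℕ, ∀ j ≤ m,
      (∀ i ∈ Z, F i (l + j) ≤ η * s (l + j)) ∧ (∀ i ∉ Z, δ * s (l + j) ≤ F i (l + j)) := by
  classical
  by_contra hcon
  push Not at hcon
  let P : Finset (Fin Q) → Prop := fun Z => ∀ η : ℝ, 0 < η → ∀ m : ℕ, ∃ l : ℕ, ∀ j ≤ m,
    ∀ i ∈ Z, F i (l + j) ≤ η * s (l + j)
  have hP0 : P ∅ := fun η _ m => ⟨0, fun j _ i hi => absurd hi (Finset.notMem_empty i)⟩
  have hstep : ∀ Z, P Z → ∃ i, i ∉ Z ∧ P (insert i Z) := by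
    intro Z hZ
    by_contra hno
    push Not at hno
    have hno' : ∀ i : Fin Q, ∃ η : ℝ, 0 < η ∧ ∃ m : ℕ, i ∉ Z → ∀ l, ∃ j ≤ m, ∃ k ∈ insert i Z,
        η * s (l + j) < F k (l + j) := by
      intro i
      by_cases hi : i ∈ Z
      · exact ⟨1, one_pos, 0, fun h => absurd hi h⟩
      · have h1 := hno i hi
        simp only [P] at h1
        push Not at h1
        obtain ⟨η, hη, m, h2⟩ := h1
        exact ⟨η, hη, m, fun _ => h2⟩
    choose et het mm hmm using hno'
    obtain ⟨η', hη', hle⟩ : ∃ η' : ℝ, 0 < η' ∧ ∀ i, η' ≤ et i := by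
      refine ⟨1 / (1 + ∑ i, 1 / et i), ?_, ?_⟩
      · have h1 : 0 ≤ ∑ i, 1 / et i := Finset.sum_nonneg fun i _ => (one_div_pos.2 (het i)).le
        positivity
      · intro i
        have h1 : 1 / et i ≤ 1 + ∑ i, 1 / et i := by
          have h2 := Finset.single_le_sum (f := fun i => 1 / et i)
            (fun i _ => (one_div_pos.2 (het i)).le) (Finset.mem_univ i)
          linarith
        have h3 := one_div_le_one_div_of_le (one_div_pos.2 (het i)) h1
        rwa [one_div_one_div] at h3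
    obtain ⟨m', hm'⟩ : ∃ m' : ℕ, ∀ i, mm i ≤ m' :=
      ⟨∑ i, mm i, fun i => Finset.single_le_sum (fun _ _ => Nat.zero_le _) (Finset.mem_univ i)⟩
    have hE0p : 0 < E0 := by linarith
    have hEp : 0 < E := by linarith
    have hD : 0 < E0 * E ^ m' := by positivity
    obtain ⟨η, hη, m, h1⟩ := hcon Z (η' / (E0 * E ^ m')) (by positivity)
    obtain ⟨l, hl⟩ := hZ (min η η') (lt_min hη hη') (m + m')
    obtain ⟨j, hj, h2⟩ := h1 l
    have h3 : ∀ i ∈ Z, F i (l + j) ≤ η * s (l + j) := fun i hi =>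
      (hl j (by omega) i hi).trans (mul_le_mul_of_nonneg_right (min_le_left _ _) (hs _).le)
    obtain ⟨i, hi, h4⟩ := h2 h3
    obtain ⟨k, hk, i', hi', h5⟩ := hmm i hi (l + j)
    have hk' : k ≤ m' := hk.trans (hm' i)
    have h6 : F i' (l + j + k) ≤ η' * s (l + j + k) := by
      rcases Finset.mem_insert.1 hi' with rfl | h7
      · have e1 : E ^ k ≤ E ^ m' := pow_le_pow_right₀ hE hk'
        calc F i' (l + j + k) ≤ E0 * E ^ k * F i' (l + j) := hF i' (l + j) k
          _ ≤ E0 * E ^ m' * F i' (l + j) :=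
            mul_le_mul_of_nonneg_right (mul_le_mul_of_nonneg_left e1 hE0p.le) (hF0 _ _)
          _ ≤ E0 * E ^ m' * (η' / (E0 * E ^ m') * s (l + j)) :=
            mul_le_mul_of_nonneg_left h4.le hD.le
          _ = η' * s (l + j) := by
            rw [← mul_assoc, mul_div_cancel₀ _ hD.ne']
          _ ≤ η' * s (l + j + k) := mul_le_mul_of_nonneg_left (hmono _ _) hη'.le
      · have h8 := hl (j + k) (by omega) i' h7
        rw [← add_assoc] at h8
        exact h8.trans (mul_le_mul_of_nonneg_right (min_le_right _ _) (hs _).le)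
    have h9 : η' * s (l + j + k) ≤ et i * s (l + j + k) :=
      mul_le_mul_of_nonneg_right (hle i) (hs _).le
    linarith
  have hfin : ∃ Z, P Z ∧ ∀ Z', P Z' → Z'.card ≤ Z.card := by
    obtain ⟨Z, hZ, hmax⟩ := Finset.exists_max_image (Finset.univ.filter P) Finset.card
      ⟨∅, Finset.mem_filter.2 ⟨Finset.mem_univ _, hP0⟩⟩
    exact ⟨Z, (Finset.mem_filter.1 hZ).2, fun Z' hZ' =>
      hmax Z' (Finset.mem_filter.2 ⟨Finset.mem_univ _, hZ'⟩)⟩
  obtain ⟨Z, hZ, hmax⟩ := hfin
  obtain ⟨i, hi, hiZ⟩ := hstep Z hZ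
  have h1 := hmax _ hiZ
  rw [Finset.card_insert_of_notMem hi] at h1
  omega

end Pool.Agent.FGT
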